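import Pool.Agent.Helper98.NP.Main
import Pool.Agent.Helper16.NP.TwoIdeals
import Pool.Agent.Helper66.OTR.Line

/-!
# Slopes of a similitude normalizing the Lie algebra
-/

namespace Pool.Agent.Helper98.NP

set_option linter.unusedSectionVars false

open LinearMap Module.End Pool.Agent.Helper66.OTR

variable {K V : Type*} [Field K] [CharZero K] [AddCommGroup V] [Module K V]
  [FiniteDimensional K V] [IsAlgClosed K]
  {ψ : LinearMap.BilinForm K V} {s : Submodule K (Module.End K V)}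

/-- an endomorphism commuting with an irreducible family is a scalar -/
lemma scalar_of_comm (hirr : Irred s) {W : Module.End K V} (hW : ∀ Y ∈ s, W * Y = Y * W) :
    ∃ t : K, W = t • 1 := by
  have := hirr.1
  obtain ⟨t, ht⟩ := Module.End.exists_eigenvalue W
  refine ⟨t, ?_⟩
  have h1 := hirr.2 (Module.End.eigenspace W t) (fun Y hY w hw => by
    rw [Module.End.mem_eigenspace_iff] at hw ⊢
    rw [← Module.End.mul_apply, hW Y hY, Module.End.mul_apply, hw, map_smul])
  rcases h1 with h1 | h1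
  · exact absurd h1 ht
  · ext x
    have : x ∈ Module.End.eigenspace W t := by rw [h1]; exact Submodule.mem_top
    exact Module.End.mem_eigenspace_iff.1 this

/-- a symplectic endomorphism normalizing `s` lies in `s` -/
lemma mem_of_norm (S : Setup ψ s) {D : Module.End K V} (hD : ∀ x y, ψ (D x) y = - ψ x (D y))
    (hn : ∀ X ∈ s, D * X - X * D ∈ s) : D ∈ s := by
  have hnd : (Setup.tf s).Nondegenerate := by
    rw [LinearMap.BilinForm.nondegenerate_iff_ker_eq_bot]
    rw [LinearMap.ker_eq_bot']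
    intro X hX
    ext1
    refine S.nondeg X.2 (fun Y hY => ?_)
    have := congrArg (fun f => f ⟨Y, hY⟩) hX
    exact this
  let φ : Module.Dual K s :=
    { toFun := fun Y => trace K V (D * Y.1)
      map_add' := by intro X Y; simp [mul_add]
      map_smul' := by intro c X; simp }
  set Z : s := ((Setup.tf s).toDual hnd).symm φ with hZ
  have hZ' : ∀ Y ∈ s, trace K V (Z.1 * Y) = trace K V (D * Y) := by
    intro Y hY
    have h1 : (Setup.tf s).toDual hnd Z ⟨Y, hY⟩ = φ ⟨Y, hY⟩ := by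
      rw [hZ, LinearEquiv.apply_symm_apply]
    exact h1
  have hc : ∀ Y ∈ s, (D - Z.1) * Y = Y * (D - Z.1) := by
    intro Y hY
    have h1 : (D - Z.1) * Y - Y * (D - Z.1) ∈ s := by
      have : (D - Z.1) * Y - Y * (D - Z.1) = (D * Y - Y * D) - (Z.1 * Y - Y * Z.1) := by
        noncomm_ring
      rw [this]
      exact s.sub_mem (hn Y hY) (S.closed _ Z.2 _ hY)
    refine sub_eq_zero.1 (S.nondeg h1 (fun X hX => ?_))
    have h2 : trace K V (((D - Z.1) * Y - Y * (D - Z.1)) * X) =
        trace K V ((D - Z.1) * (Y * X - X * Y)) := by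
      have e1 : ((D - Z.1) * Y - Y * (D - Z.1)) * X = (D - Z.1) * (Y * X) - Y * ((D - Z.1) * X) := by
        noncomm_ring
      rw [e1, map_sub, trace_mul_comm K Y, mul_sub, map_sub, mul_assoc]
    rw [h2, sub_mul, map_sub, hZ' _ (S.closed _ hY _ hX), sub_self]
  obtain ⟨t, ht⟩ := scalar_of_comm S.irred hc
  have hsp : ∀ x y, ψ ((D - Z.1) x) y = - ψ x ((D - Z.1) y) := by
    intro x y
    simp only [LinearMap.sub_apply, map_sub]
    rw [hD, S.sp _ Z.2]; ring
  have hnt := S.irred.1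
  obtain ⟨v, hv⟩ := exists_ne (0 : V)
  obtain ⟨w, hw⟩ := exists_ne_of_nd S.nd hv
  have h3 := hsp v w
  rw [ht] at h3
  simp only [LinearMap.smul_apply, Module.End.one_apply, map_smul, smul_eq_mul] at h3
  have h4 : (2 * t) * ψ v w = 0 := by linear_combination h3
  have h5 : t = 0 := by
    have := (mul_eq_zero.1 h4).resolve_right hw
    exact (mul_eq_zero.1 this).resolve_left two_ne_zero
  rw [h5, zero_smul, sub_eq_zero] at ht
  rw [ht]; exact Z.2

/-- operators which are scalar on the generalized eigenspaces -/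
lemma exists_op (γ : V ≃ₗ[K] V) (e : K → K) :
    ∃ H : Module.End K V, ∀ ν, ∀ x ∈ ge γ ν, H x = e ν • x := by
  classical
  have hint : DirectSum.IsInternal (fun ν => ge γ ν) :=
    DirectSum.isInternal_submodule_of_iSupIndep_of_iSup_eq_top
      (independent_maxGenEigenspace (γ : Module.End K V))
      (iSup_maxGenEigenspace_eq_top (γ : Module.End K V))
  let E := LinearEquiv.ofBijective (DirectSum.coeLinearMap (fun ν => ge γ ν)) hint
  refine ⟨(DirectSum.toModule K K V (fun ν => e ν • (ge γ ν).subtype)) ∘ₗ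
    (E.symm : V →ₗ[K] _), fun ν x hx => ?_⟩
  have h1 : E.symm x = DirectSum.lof K K (fun ν => ge γ ν) ν ⟨x, hx⟩ := by
    rw [LinearEquiv.symm_apply_eq]
    exact (DirectSum.coeLinearMap_lof (fun ν => ge γ ν) ν ⟨x, hx⟩).symm
  rw [LinearMap.comp_apply, LinearEquiv.coe_coe, h1, DirectSum.toModule_lof]
  rfl

section op

variable {γ : V ≃ₗ[K] V} {c : K} {v : K → ℚ} {H : Module.End K V}

/-- the slope operator is symplectic -/
lemma op_sp (hc : c ≠ 0) (hsim : ∀ x y, ψ (γ x) (γ y) = c * ψ x y)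
    (hv : ∀ a b : K, a ≠ 0 → b ≠ 0 → v (a * b) = v a + v b)
    (hH : ∀ ν, ∀ x ∈ ge γ ν, H x = ((2 * v ν - v c : ℚ) : K) • x) (x y : V) :
    ψ (H x) y = - ψ x (H y) := by
  refine vec_induction (γ := γ) (p := fun x => ψ (H x) y = - ψ x (H y)) (by simp)
    (fun a b ha hb => by simp only [map_add, LinearMap.add_apply, ha, hb]; ring)
    (fun ν x hx => ?_) x
  refine vec_induction (γ := γ) (p := fun y => ψ (H x) y = - ψ x (H y)) (by simp)
    (fun a b ha hb => by simp only [map_add, ha, hb]; ring) (fun ν' y hy => ?_) y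
  rw [hH ν x hx, hH ν' y hy, map_smul, LinearMap.smul_apply, map_smul, smul_eq_mul, smul_eq_mul]
  by_cases hne : ν * ν' = c
  · have h1 : ν ≠ 0 := by rintro rfl; exact hc (by rw [← hne, zero_mul])
    have h2 : ν' ≠ 0 := by rintro rfl; exact hc (by rw [← hne, mul_zero])
    have h3 := hv ν ν' h1 h2
    rw [hne] at h3
    have h4 : (2 * v ν - v c : ℚ) = - (2 * v ν' - v c) := by rw [h3]; ring
    rw [h4]; push_cast; ring
  · rw [orth_gen hsim hne hx hy]; ring

/-- the slope operator normalizes `s` -/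
lemma op_norm (hs : ∀ X ∈ s, cj γ X ∈ s)
    (hv : ∀ a b : K, a ≠ 0 → b ≠ 0 → v (a * b) = v a + v b)
    (hH : ∀ ν, ∀ x ∈ ge γ ν, H x = ((2 * v ν - v c : ℚ) : K) • x) {X : Module.End K V}
    (hX : X ∈ s) : H * X - X * H ∈ s := by
  refine hom_induction (γ := γ) hs (p := fun X => H * X - X * H ∈ s) (by simp)
    (fun A B hA hB => ?_) (fun μ Z hZ hZ' => ?_) hX
  · have : H * (A + B) - (A + B) * H = (H * A - A * H) + (H * B - B * H) := by noncomm_ring
    rw [this]; exact s.add_mem hA hB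
  · by_cases hμ : μ = 0
    · subst hμ
      rw [hom_zero hZ']; simp
    · have : H * Z - Z * H = ((2 * v μ : ℚ) : K) • Z := by
        ext x
        refine vec_induction (γ := γ)
          (p := fun x => (H * Z - Z * H) x = (((2 * v μ : ℚ) : K) • Z) x) (by simp)
          (fun a b ha hb => by rw [map_add, map_add, ha, hb]) (fun ν x hx => ?_) x
        by_cases hν : ν = 0
        · subst hν
          rw [ge_zero hx]; simp
        · rw [LinearMap.sub_apply, Module.End.mul_apply, Module.End.mul_apply,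
            hH _ _ (map_gen hZ' hx), hH _ _ hx, map_smul, LinearMap.smul_apply, ← sub_smul,
            hv μ ν hμ hν]
          congr 1
          push_cast; ring
      rw [this]
      exact s.smul_mem _ hZ

lemma op_integral (hint : ∀ ν : K, Module.End.HasEigenvalue (γ : V →ₗ[K] V) ν →
      ∃ n : ℤ, 2 * v ν - v c = n)
    (hH : ∀ ν, ∀ x ∈ ge γ ν, H x = ((2 * v ν - v c : ℚ) : K) • x) : Integral H := by
  rw [Integral, eq_top_iff, ← iSup_maxGenEigenspace_eq_top (γ : Module.End K V)]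
  refine iSup_le fun ν x hx => ?_
  by_cases hx0 : x = 0
  · rw [hx0]; exact Submodule.zero_mem _
  obtain ⟨n, hn⟩ := hint ν (hasEigenvalue_of_ge hx hx0)
  refine Submodule.mem_iSup_of_mem n ?_
  rw [Module.End.mem_eigenspace_iff, hH ν x hx, hn]
  push_cast; rfl

lemma op_oddPart (hint : ∀ ν : K, Module.End.HasEigenvalue (γ : V →ₗ[K] V) ν →
      ∃ n : ℤ, 2 * v ν - v c = n)
    (hH : ∀ ν, ∀ x ∈ ge γ ν, H x = ((2 * v ν - v c : ℚ) : K) • x) :
    oddPart H = ⨆ (ν : K) (_ : ∃ n : ℤ, Odd n ∧ 2 * v ν - v c = n), ge γ ν := by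
  set O : Submodule K V := ⨆ (ν : K) (_ : ∃ n : ℤ, Odd n ∧ 2 * v ν - v c = n), ge γ ν with hO
  have hle : O ≤ oddPart H := by
    refine iSup₂_le ?_
    rintro ν ⟨n, hn, hn'⟩ x hx
    refine Submodule.mem_iSup_of_mem n (Submodule.mem_iSup_of_mem hn ?_)
    rw [Module.End.mem_eigenspace_iff, hH ν x hx, hn']
    push_cast; rfl
  refine le_antisymm ?_ hle
  intro x hx
  have hdis : Disjoint (oddPart H) (⨆ (n : ℤ) (_ : ¬ Odd n), Module.End.eigenspace H (n : K)) := by
    have := (Pool.Agent.Helper79.NP.eig_indep H).disjoint_biSup_biSup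
      (s := {n : ℤ | Odd n}) (t := {n : ℤ | Odd n}ᶜ) disjoint_compl_right
    exact this
  have hdec : ∀ x : V, ∃ a ∈ O, ∃ b ∈ (⨆ (n : ℤ) (_ : ¬ Odd n), Module.End.eigenspace H (n : K)),
      x = a + b := by
    intro x
    refine vec_induction (γ := γ) (p := fun x => ∃ a ∈ O,
      ∃ b ∈ (⨆ (n : ℤ) (_ : ¬ Odd n), Module.End.eigenspace H (n : K)), x = a + b)
      ⟨0, Submodule.zero_mem _, 0, Submodule.zero_mem _, by simp⟩ ?_ ?_ x
    · rintro _ _ ⟨a, ha, b, hb, rfl⟩ ⟨a', ha', b', hb', rfl⟩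
      exact ⟨a + a', Submodule.add_mem _ ha ha', b + b', Submodule.add_mem _ hb hb', by abel⟩
    · intro ν x hx
      by_cases hx0 : x = 0
      · exact ⟨0, Submodule.zero_mem _, 0, Submodule.zero_mem _, by simp [hx0]⟩
      obtain ⟨n, hn⟩ := hint ν (hasEigenvalue_of_ge hx hx0)
      by_cases ho : Odd n
      · exact ⟨x, Submodule.mem_iSup_of_mem ν (Submodule.mem_iSup_of_mem ⟨n, ho, hn⟩ hx), 0,
          Submodule.zero_mem _, by simp⟩
      · refine ⟨0, Submodule.zero_mem _, x, Submodule.mem_iSup_of_mem n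
          (Submodule.mem_iSup_of_mem ho ?_), by simp⟩
        rw [Module.End.mem_eigenspace_iff, hH ν x hx, hn]
        push_cast; rfl
  obtain ⟨a, ha, b, hb, rfl⟩ := hdec x
  have h1 : b ∈ oddPart H := by
    have := Submodule.sub_mem _ hx (hle ha)
    rwa [add_sub_cancel_left] at this
  have h2 : b = 0 := Submodule.disjoint_def.1 hdis b h1 hb
  rw [h2, add_zero]
  exact ha

end op

/-- **Main theorem for subalgebras of `sp`, in terms of slopes.** -/
theorem slope_sp (S : Setup ψ s) (hgen : Gen s) {γ : V ≃ₗ[K] V} {c : K}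
    (hsim : ∀ x y, ψ (γ x) (γ y) = c * ψ x y) (hs : ∀ X ∈ s, cj γ X ∈ s) {v : K → ℚ}
    (hv : ∀ a b : K, a ≠ 0 → b ≠ 0 → v (a * b) = v a + v b)
    (hint : ∀ ν : K, Module.End.HasEigenvalue (γ : V →ₗ[K] V) ν → ∃ n : ℤ, 2 * v ν - v c = n)
    (hmod : Module.finrank K ((⨆ (ν : K) (_ : ∃ n : ℤ, Odd n ∧ 2 * v ν - v c = n),
      Module.End.maxGenEigenspace (γ : V →ₗ[K] V) ν : Submodule K V)) % 4 = 2)
    (hne : 2 * Module.finrank K ((⨆ (ν : K) (_ : ∃ n : ℤ, Odd n ∧ 2 * v ν - v c = n),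
      Module.End.maxGenEigenspace (γ : V →ₗ[K] V) ν : Submodule K V)) ≠ Module.finrank K V)
    {X : Module.End K V} (hX : ∀ x y, ψ (X x) y = - ψ x (X y)) : X ∈ s := by
  obtain ⟨H, hH⟩ := exists_op γ (fun ν => ((2 * v ν - v c : ℚ) : K))
  have hnt := S.irred.1
  have hc : c ≠ 0 := by
    rintro rfl
    obtain ⟨x, hx⟩ := exists_ne (0 : V)
    obtain ⟨w, hw⟩ := exists_ne_of_nd S.nd hx
    apply hw
    have := hsim (γ.symm x) (γ.symm w)
    rwa [γ.apply_symm_apply, γ.apply_symm_apply, zero_mul] at this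
  have hHs : H ∈ s := mem_of_norm S (op_sp hc hsim hv hH) (fun X hX => op_norm hs hv hH hX)
  have h1 := op_oddPart hint hH
  have h2 : Module.finrank K (oddPart H) % 4 = 2 := by rw [h1]; exact hmod
  have h3 : 2 * Module.finrank K (oddPart H) ≠ Module.finrank K V := by rw [h1]; exact hne
  exact main_sp S hgen (fun {I J} hI hJ hI' hJ' hcomm hsup hI0 hJ0 {h} hh hint hmod =>
    Pool.Agent.Helper16.NP.two_ideals S hgen hI hJ hI' hJ' hcomm hsup hI0 hJ0 hh hint hmod)
    hHs (op_integral hint hH) h2 h3 hX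

end Pool.Agent.Helper98.NP
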