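import Mathlib

/-!
# From the roots not vanishing at `u` to all roots
-/

namespace Pool.Agent.Helper98.NP

variable {ι K M N : Type*} [Finite ι] [Field K] [CharZero K] [AddCommGroup M] [Module K M]
  [AddCommGroup N] [Module K N] {P : RootPairing ι K M N} [P.IsIrreducible]

/-- If all roots not vanishing at `u` are minuscule for `Λ` then so are all roots. -/
theorem all_minuscule {Λ : Set M} {u : N} (hne : ∃ i, P.toLinearMap (P.root i) u ≠ 0)
    (h1 : ∀ i, P.toLinearMap (P.root i) u ≠ 0 → ∀ l ∈ Λ, P.toLinearMap l (P.coroot i) = -1 ∨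
      P.toLinearMap l (P.coroot i) = 0 ∨ P.toLinearMap l (P.coroot i) = 1)
    (h2 : ∀ i, P.toLinearMap (P.root i) u ≠ 0 → ∀ l ∈ Λ, P.reflection i l ∈ Λ) (i : ι) :
    ∀ l ∈ Λ, P.toLinearMap l (P.coroot i) = -1 ∨
      P.toLinearMap l (P.coroot i) = 0 ∨ P.toLinearMap l (P.coroot i) = 1 := by
  set S : Set M := {x | ∃ i, P.toLinearMap (P.root i) u ≠ 0 ∧ P.root i = x} with hS
  set q : Submodule K M := Submodule.span K S with hq
  have refl_apply : ∀ i x, P.reflection i x = x - P.toLinearMap x (P.coroot i) • P.root i := by
    intro i x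
    rw [RootPairing.reflection_apply]
    rfl
  have corefl : ∀ i j, P.coroot (P.reflectionPerm i j) =
      P.coroot j - P.toLinearMap (P.root i) (P.coroot j) • P.coroot i := by
    intro i j
    rw [P.coroot_reflectionPerm, RootPairing.coreflection_apply]
  have rt : ∀ i j, P.root (P.reflectionPerm i j) =
      P.root j - P.toLinearMap (P.root j) (P.coroot i) • P.root i := by
    intro i j
    rw [P.root_reflectionPerm, refl_apply]
  -- the reflection trick
  have key : ∀ g b, P.toLinearMap (P.root g) u = 0 → P.toLinearMap (P.root b) u ≠ 0 →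
      P.toLinearMap (P.root b) (P.coroot g) ≠ 0 →
      P.toLinearMap (P.root (P.reflectionPerm b g)) u ≠ 0 := by
    intro g b hg hb hbg
    have hgb : P.toLinearMap (P.root g) (P.coroot b) ≠ 0 := by
      have := (P.pairing_eq_zero_iff (i := b) (j := g)).not
      exact fun h => hbg ((P.pairing_eq_zero_iff (i := b) (j := g)).2 h)
    rw [rt, map_sub, map_smul, LinearMap.sub_apply, LinearMap.smul_apply, hg, zero_sub,
      neg_ne_zero, smul_eq_mul]
    exact mul_ne_zero hgb hb
  have hinv : ∀ i, q ∈ Module.End.invtSubmodule (P.reflection i : M →ₗ[K] M) := by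
    intro g x hx
    show P.reflection g x ∈ q
    rw [refl_apply]
    by_cases hg : P.toLinearMap (P.root g) u = 0
    · by_cases hall : ∀ y ∈ S, P.toLinearMap y (P.coroot g) = 0
      · have : P.toLinearMap x (P.coroot g) = 0 := by
          have hle : q ≤ LinearMap.ker (P.toLinearMap.flip (P.coroot g)) := by
            rw [hq, Submodule.span_le]
            intro y hy
            exact hall y hy
          exact hle hx
        rw [this, zero_smul, sub_zero]
        exact hx
      · push Not at hall
        obtain ⟨_, ⟨b, hb, rfl⟩, hbg⟩ := hall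
        refine q.sub_mem hx (q.smul_mem _ ?_)
        have h3 := key g b hg hb hbg
        have h4 : P.root g = P.root (P.reflectionPerm b g) +
            P.toLinearMap (P.root g) (P.coroot b) • P.root b := by rw [rt]; abel
        rw [h4]
        exact q.add_mem (Submodule.subset_span ⟨_, h3, rfl⟩)
          (q.smul_mem _ (Submodule.subset_span ⟨_, hb, rfl⟩))
    · exact q.sub_mem hx (q.smul_mem _ (Submodule.subset_span ⟨g, hg, rfl⟩))
  have hbot : q ≠ ⊥ := by
    obtain ⟨i, hi⟩ := hne
    intro h
    have h3 : P.root i ∈ q := Submodule.subset_span ⟨i, hi, rfl⟩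
    rw [h, Submodule.mem_bot] at h3
    rw [h3, map_zero, LinearMap.zero_apply] at hi
    exact hi rfl
  have htop : q = ⊤ := RootPairing.IsIrreducible.eq_top_of_invtSubmodule_reflection q hinv hbot
  by_cases hi : P.toLinearMap (P.root i) u = 0
  · obtain ⟨b, hb, hbi⟩ : ∃ b, P.toLinearMap (P.root b) u ≠ 0 ∧
        P.toLinearMap (P.root b) (P.coroot i) ≠ 0 := by
      by_contra hcon
      push Not at hcon
      have hle : q ≤ LinearMap.ker (P.toLinearMap.flip (P.coroot i)) := by
        rw [hq, Submodule.span_le]
        rintro _ ⟨b, hb, rfl⟩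
        exact hcon b hb
      rw [htop, top_le_iff, LinearMap.ker_eq_top] at hle
      have h3 : P.toLinearMap (P.root i) (P.coroot i) = 0 := by
        have := congrArg (fun f => f (P.root i)) hle
        exact this
      have h4 : P.toLinearMap (P.root i) (P.coroot i) = 2 := P.root_coroot_two i
      rw [h4] at h3
      exact two_ne_zero h3
    intro l hl
    have h3 := key i b hi hb hbi
    have h5 := h1 _ h3 _ (h2 b hb l hl)
    have h6 : P.toLinearMap (P.reflection b l) (P.coroot (P.reflectionPerm b i)) =
        P.toLinearMap l (P.coroot i) := by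
      rw [refl_apply, corefl]
      have h4 : P.toLinearMap (P.root b) (P.coroot b) = 2 := P.root_coroot_two b
      simp only [map_sub, map_smul, LinearMap.sub_apply, LinearMap.smul_apply, smul_eq_mul, h4]
      ring
    rwa [h6] at h5
  · exact h1 i hi

end Pool.Agent.Helper98.NP
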