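import Mathlib

/-!
# Newton polygon criterion: shared definitions (combinatorial part)
-/

namespace Pool.Agent.Helper98.NP

variable {ι K M N : Type*} [Field K] [AddCommGroup M] [Module K M] [AddCommGroup N] [Module K N]

/-- A finite set of minuscule weights of a root pairing. -/
structure Wts (P : RootPairing ι K M N) (Λ : Finset M) : Prop where
  mini : ∀ l ∈ Λ, ∀ i, P.toLinearMap l (P.coroot i) = -1 ∨ P.toLinearMap l (P.coroot i) = 0 ∨
    P.toLinearMap l (P.coroot i) = 1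
  refl : ∀ l ∈ Λ, ∀ i, P.reflection i l ∈ Λ
  neg : ∀ l ∈ Λ, -l ∈ Λ
  diff : ∀ l ∈ Λ, ∀ l' ∈ Λ, l - l' ∈ AddSubgroup.closure (Set.range P.root)
  ne : ∀ i, ∃ l ∈ Λ, P.toLinearMap l (P.coroot i) ≠ 0

/-- A chain of pairwise strongly orthogonal roots from `l` down to `l'`. -/
structure Chain (P : RootPairing ι K M N) (l l' : M) {r : ℕ} (γ : Fin r → ι) : Prop where
  sum : l - l' = ∑ j, P.root (γ j)
  top : ∀ j, P.toLinearMap l (P.coroot (γ j)) = 1
  bot : ∀ j, P.toLinearMap l' (P.coroot (γ j)) = -1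
  orth : ∀ i j, i ≠ j → P.pairing (γ i) (γ j) = 0
  str : ∀ i j, i ≠ j → P.root (γ i) + P.root (γ j) ∉ Set.range P.root

/-- multiplicities and the trace form -/
structure Tr (P : RootPairing ι K M N) (Λ : Finset M) (d : M → ℕ) (ρ : ι → ℕ) : Prop where
  pos : ∀ l ∈ Λ, 0 < d l
  neg : ∀ l, d (-l) = d l
  tr : ∀ i x, ∑ l ∈ Λ, (d l : K) * (P.toLinearMap l x * P.toLinearMap l (P.coroot i)) =
    (ρ i : K) * P.toLinearMap (P.root i) x

end Pool.Agent.Helper98.NP
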