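import Pool.Agent.Helper12.NP.Chain

/-!
# Newton polygon criterion, module C5
-/

namespace Pool.Agent.Helper98.NP

set_option linter.unusedSectionVars false

open Pool.Agent.Helper12.NP

/-- a symmetric sum of even integers vanishing at zero is divisible by four -/
lemma four_dvd_symm {G : Type*} [AddCommGroup G] [IsAddTorsionFree G] {Λ : Finset G}
    (hneg : ∀ l ∈ Λ, -l ∈ Λ) (f : G → ℤ) (hf : ∀ l ∈ Λ, f (-l) = f l)
    (h0 : f 0 = 0) (heven : ∀ l ∈ Λ, Even (f l)) : (4 : ℤ) ∣ ∑ l ∈ Λ, f l := by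
  have key : ∑ l ∈ Λ, (f l : ZMod 4) = 0 := by
    refine Finset.sum_involution (fun l _ => -l) ?_ ?_ (fun l hl => hneg l hl)
      (fun l _ => neg_neg l)
    · intro l hl
      show (f l : ZMod 4) + (f (-l) : ZMod 4) = 0
      rw [hf l hl, ← Int.cast_add]
      obtain ⟨k, hk⟩ := heven l hl
      rw [hk]
      have : ((k + k + (k + k) : ℤ)) = 4 * k := by ring
      rw [this, Int.cast_mul]
      have h4 : ((4 : ℤ) : ZMod 4) = 0 := by decide
      rw [h4, zero_mul]
    · intro l hl hne h
      apply hne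
      have h1 : l = 0 := by
        have h2 : -l = l := h
        have h3 : (2 : ℕ) • l = 0 := by
          rw [two_nsmul]
          nth_rw 1 [← h2]
          exact neg_add_cancel l
        exact (smul_eq_zero.1 h3).resolve_left two_ne_zero
      rw [h1, h0]
      simp
  have h1 : ((∑ l ∈ Λ, f l : ℤ) : ZMod 4) = 0 := by
    rw [Int.cast_sum]; exact key
  exact (ZMod.intCast_zmod_eq_zero_iff_dvd _ 4).1 h1

variable {ι K M N : Type*} [Finite ι] [Field K] [CharZero K] [AddCommGroup M] [Module K M]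
  [AddCommGroup N] [Module K N] {P : RootPairing ι K M N} [P.IsCrystallographic] [P.IsReduced]
  {Λ : Finset M} {d : M → ℕ} {ρ : ι → ℕ}

lemma two_rho (T : Tr P Λ d ρ) (i : ι) :
    ∑ l ∈ Λ, (d l : K) * (P.toLinearMap l (P.coroot i) * P.toLinearMap l (P.coroot i)) =
      2 * (ρ i : K) := by
  rw [T.tr i (P.coroot i)]
  have h4 : P.toLinearMap (P.root i) (P.coroot i) = 2 := P.root_coroot_two i
  rw [h4, mul_comm]

/-- (C5), assuming (C4) -/
theorem even_q_of [P.IsIrreducible] (W : Wts P Λ) (T : Tr P Λ d ρ) (hρ : ∀ i, Even (ρ i))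
    (hC4 : ∀ x : N, (∀ i, P.toLinearMap (P.root i) x = -1 ∨ P.toLinearMap (P.root i) x = 0 ∨
      P.toLinearMap (P.root i) x = 1) → ∀ l ∈ Λ, ∀ n : ℤ, 1 ≤ n → P.toLinearMap l x = n →
      ∀ i j : ι, P.pairing i j = P.pairing j i)
    (hk : ∀ l ∈ Λ, Odd (d l) → ∀ (r : ℕ) (β : Fin r → ι), Chain P l (-l) β → Odd r)
    {x : N} (hx : ∀ l ∈ Λ, ∃ n : ℤ, P.toLinearMap l x = n) :
    ∃ m : ℤ, ∑ l ∈ Λ, (d l : K) * (P.toLinearMap l x * P.toLinearMap l x) = 4 * m := by
  classical
  -- the statement over the integers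
  have main : ∀ k : ℕ, ∀ x : N, ∀ n : M → ℤ, (∀ l ∈ Λ, P.toLinearMap l x = n l) →
      (∑ l ∈ Λ, (d l : ℤ) * (n l * n l)) = k → (4 : ℤ) ∣ ∑ l ∈ Λ, (d l : ℤ) * (n l * n l) := by
    intro k
    induction k using Nat.strong_induction_on with
    | _ k ih =>
    intro x n hn hsum
    have hcast : ∑ l ∈ Λ, (d l : K) * (P.toLinearMap l x * P.toLinearMap l x) =
        ((∑ l ∈ Λ, (d l : ℤ) * (n l * n l) : ℤ) : K) := by
      rw [Int.cast_sum]
      refine Finset.sum_congr rfl (fun l hl => ?_)
      rw [hn l hl]; push_cast; ring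
    -- coroot values
    choose! c hc1 hc2 hc using fun i l (hl : l ∈ Λ) => mini_int W hl i
    have hρ2 : ∀ i, ∑ l ∈ Λ, (d l : ℤ) * (c i l * c i l) = 2 * (ρ i : ℤ) := by
      intro i
      have h1 := two_rho T i
      have h2 : ((∑ l ∈ Λ, (d l : ℤ) * (c i l * c i l) : ℤ) : K) = ((2 * (ρ i : ℤ) : ℤ) : K) := by
        rw [Int.cast_sum]
        push_cast
        rw [← h1]
        refine Finset.sum_congr rfl (fun l hl => ?_)
        rw [hc i l hl]
      exact_mod_cast h2
    have hρpos : ∀ i, 0 < ρ i := by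
      intro i
      obtain ⟨l, hl, hne⟩ := W.ne i
      have h1 := hρ2 i
      have h2 : 0 < ∑ l ∈ Λ, (d l : ℤ) * (c i l * c i l) := by
        refine Finset.sum_pos' (fun l _ => mul_nonneg (by positivity) (mul_self_nonneg _))
          ⟨l, hl, ?_⟩
        have h3 : c i l ≠ 0 := by
          intro h
          apply hne
          rw [hc i l hl, h, Int.cast_zero]
        have h4 : (0 : ℤ) < d l := by exact_mod_cast T.pos l hl
        exact mul_pos h4 (mul_self_pos.2 h3)
      have : (0 : ℤ) < 2 * (ρ i : ℤ) := h1 ▸ h2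
      omega
    -- root values
    have hroot : ∀ i, ∃ a : ℤ, P.toLinearMap (P.root i) x = a := by
      intro i
      obtain ⟨l, hl, hne⟩ := W.ne i
      have h1 := W.refl l hl i
      have h2 : P.reflection i l = l - P.toLinearMap l (P.coroot i) • P.root i := by
        rw [RootPairing.reflection_apply]; rfl
      have h3 := hn _ h1
      rw [h2, map_sub, map_smul, LinearMap.sub_apply, LinearMap.smul_apply, hn l hl,
        smul_eq_mul, ← h2] at h3
      rcases W.mini l hl i with h | h | h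
      · refine ⟨n (P.reflection i l) - n l, ?_⟩
        rw [h] at h3
        push_cast
        rw [← h3]; ring
      · exact absurd h hne
      · refine ⟨n l - n (P.reflection i l), ?_⟩
        rw [h] at h3
        push_cast
        rw [← h3]; ring
    choose a ha using hroot
    have htr : ∀ i, ∑ l ∈ Λ, (d l : ℤ) * (n l * c i l) = (ρ i : ℤ) * a i := by
      intro i
      have h1 := T.tr i x
      have h2 : ((∑ l ∈ Λ, (d l : ℤ) * (n l * c i l) : ℤ) : K) = (((ρ i : ℤ) * a i : ℤ) : K) := by
        rw [Int.cast_sum]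
        push_cast
        rw [← ha i, ← h1]
        refine Finset.sum_congr rfl (fun l hl => ?_)
        rw [hc i l hl, hn l hl]
      exact_mod_cast h2
    -- descent step
    have step : ∀ i, ∀ ε : ℤ, ε * ε = 1 → ε * a i ≤ -2 →
        (4 : ℤ) ∣ ∑ l ∈ Λ, (d l : ℤ) * (n l * n l) := by
      intro i ε hε hi
      have h1 : ∑ l ∈ Λ, (d l : ℤ) * ((n l + ε * c i l) * (n l + ε * c i l)) =
          (∑ l ∈ Λ, (d l : ℤ) * (n l * n l)) + 2 * (ρ i : ℤ) * (ε * a i + 1) := by
        have h2 : ∀ l ∈ Λ, (d l : ℤ) * ((n l + ε * c i l) * (n l + ε * c i l)) =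
            (d l : ℤ) * (n l * n l) + 2 * ε * ((d l : ℤ) * (n l * c i l)) +
              (d l : ℤ) * (c i l * c i l) := by
          intro l _
          linear_combination (d l : ℤ) * (c i l * c i l) * hε
        rw [Finset.sum_congr rfl h2, Finset.sum_add_distrib, Finset.sum_add_distrib,
          ← Finset.mul_sum, htr i, hρ2 i]
        ring
      have hpos : (0 : ℤ) ≤ ∑ l ∈ Λ, (d l : ℤ) * ((n l + ε * c i l) * (n l + ε * c i l)) :=
        Finset.sum_nonneg (fun l _ => mul_nonneg (by positivity) (mul_self_nonneg _))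
      obtain ⟨k', hk'⟩ := Int.eq_ofNat_of_zero_le hpos
      have hlt : k' < k := by
        have h3 : (0 : ℤ) < ρ i := by exact_mod_cast hρpos i
        have h4 : 2 * (ρ i : ℤ) * (ε * a i + 1) < 0 := by nlinarith
        rw [hsum] at h1
        rw [h1] at hk'
        omega
      have h5 := ih k' hlt (x + (ε : K) • P.coroot i) (fun l => n l + ε * c i l)
        (fun l hl => by
          rw [map_add, map_smul, hn l hl, hc i l hl, smul_eq_mul]; push_cast; ring) hk'
      rw [h1] at h5
      obtain ⟨r, hr⟩ := hρ i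
      have h6 : (4 : ℤ) ∣ 2 * (ρ i : ℤ) * (ε * a i + 1) :=
        ⟨(r : ℤ) * (ε * a i + 1), by rw [hr]; push_cast; ring⟩
      exact (Int.dvd_add_left h6).1 h5
    by_cases hsmall : ∀ i, a i = -1 ∨ a i = 0 ∨ a i = 1
    · -- small case
      by_cases hz : ∀ l ∈ Λ, n l = 0
      · rw [Finset.sum_eq_zero (fun l hl => by rw [hz l hl]; ring)]
        exact dvd_zero _
      push Not at hz
      obtain ⟨l₀, hl₀, hne⟩ := hz
      obtain ⟨l, hl, hpos⟩ : ∃ l ∈ Λ, 1 ≤ n l := by
        rcases lt_or_gt_of_ne hne with h | h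
        · refine ⟨-l₀, W.neg l₀ hl₀, ?_⟩
          have h1 := hn _ (W.neg l₀ hl₀)
          rw [map_neg, LinearMap.neg_apply, hn l₀ hl₀] at h1
          have h2 : n (-l₀) = - n l₀ := by
            have : ((-n l₀ : ℤ) : K) = n (-l₀) := by rw [← h1]; push_cast; ring
            exact_mod_cast this.symm
          omega
        · exact ⟨l₀, hl₀, h⟩
      have hsl := hC4 x (fun i => by
        rw [ha i]
        rcases hsmall i with h | h | h <;> rw [h] <;> simp) l hl (n l) hpos (hn l hl)
      by_cases hall : ∀ l ∈ Λ, Even (d l)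
      · set n' : M → ℤ := fun l => if l ∈ Λ then n l else 0 with hn'
        have h1 : ∑ l ∈ Λ, (d l : ℤ) * (n l * n l) = ∑ l ∈ Λ, (d l : ℤ) * (n' l * n' l) :=
          Finset.sum_congr rfl (fun l hl => by rw [hn']; simp [hl])
        rw [h1]
        have : IsAddTorsionFree M := .of_isTorsionFree K M
        refine four_dvd_symm W.neg (fun l => (d l : ℤ) * (n' l * n' l)) ?_ ?_ ?_
        · intro l hl
          have h2 := hn _ (W.neg l hl)
          rw [map_neg, LinearMap.neg_apply, hn l hl] at h2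
          have h3 : n (-l) = - n l := by
            have : ((-n l : ℤ) : K) = n (-l) := by rw [← h2]; push_cast; ring
            exact_mod_cast this.symm
          simp only [hn', hl, W.neg l hl, if_true, T.neg l, h3]
          ring
        · by_cases h0 : (0 : M) ∈ Λ
          · have h2 := hn 0 h0
            rw [map_zero, LinearMap.zero_apply] at h2
            have h3 : n 0 = 0 := by exact_mod_cast h2.symm
            simp [hn', h3]
          · simp [hn', h0]
        · intro l hl
          obtain ⟨r, hr⟩ := hall l hl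
          exact ⟨(r : ℤ) * (n' l * n' l), by rw [hr]; push_cast; ring⟩
      · push Not at hall
        obtain ⟨l₁, hl₁, hodd⟩ := hall
        rw [Nat.not_even_iff_odd] at hodd
        obtain ⟨r, β, hβ⟩ := exists_chain W hl₁ (W.neg l₁ hl₁)
        obtain ⟨m, hm⟩ := simply_laced W T hρ hsl hl₁ (hk l₁ hl₁ hodd r β hβ) hβ
          (fun l hl => ⟨n l, hn l hl⟩)
        rw [hcast] at hm
        exact ⟨m, by exact_mod_cast hm⟩
    · push Not at hsmall
      obtain ⟨i, h1, h2, h3⟩ := hsmall
      rcases lt_or_ge (a i) 0 with h | h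
      · exact step i 1 (by norm_num) (by omega)
      · exact step i (-1) (by norm_num) (by omega)
  choose! n hn using hx
  have hpos : (0 : ℤ) ≤ ∑ l ∈ Λ, (d l : ℤ) * (n l * n l) :=
    Finset.sum_nonneg (fun l _ => mul_nonneg (by positivity) (mul_self_nonneg _))
  obtain ⟨k, hk'⟩ := Int.eq_ofNat_of_zero_le hpos
  obtain ⟨m, hm⟩ := main k x n hn hk'
  refine ⟨m, ?_⟩
  have hcast : ∑ l ∈ Λ, (d l : K) * (P.toLinearMap l x * P.toLinearMap l x) =
      ((∑ l ∈ Λ, (d l : ℤ) * (n l * n l) : ℤ) : K) := by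
    rw [Int.cast_sum]
    refine Finset.sum_congr rfl (fun l hl => ?_)
    rw [hn l hl]; push_cast; ring
  rw [hcast, hm]; push_cast; ring

end Pool.Agent.Helper98.NP
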