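import Pool.Agent.Helper98.NP.Defs
import Pool.Agent.Helper66.OTR.Gsp

/-!
# Newton polygon criterion: shared definitions (Lie part)
-/

namespace Pool.Agent.Helper98.NP

open Pool.Agent.Helper66.OTR

variable {K V : Type*} [Field K] [AddCommGroup V] [Module K V]

/-- the sum of the eigenspaces with odd eigenvalues -/
def oddPart (h : Module.End K V) : Submodule K V :=
  ⨆ (n : ℤ) (_ : Odd n), Module.End.eigenspace h (n : K)

/-- all eigenvalues are integers and `h` is diagonalisable -/
def Integral (h : Module.End K V) : Prop := ⨆ n : ℤ, Module.End.eigenspace h (n : K) = ⊤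

end Pool.Agent.Helper98.NP
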