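import Pool.Agent.Helper98.NP.Simple
import Pool.Agent.Helper79.NP.TraceSq
import Pool.Agent.Helper68.NP.CommHalf

/-!
# Main theorem for subalgebras of `sp`
-/

namespace Pool.Agent.Helper98.NP

set_option linter.unusedSectionVars false

open LieAlgebra LieModule Module LieAlgebra.IsKilling Pool.Agent.Helper66.OTR

attribute [local instance 100] LieRing.ofAssociativeRing

variable {K V : Type*} [Field K] [CharZero K] [AddCommGroup V] [Module K V]
  [FiniteDimensional K V] [IsAlgClosed K]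
  {ψ : LinearMap.BilinForm K V} {s : Submodule K (Module.End K V)}

lemma oddPart_zero : oddPart (0 : Module.End K V) = ⊥ := by
  rw [oddPart]
  simp only [iSup_eq_bot]
  intro n hn
  rw [eq_bot_iff]
  intro v hv
  rw [Module.End.mem_eigenspace_iff, LinearMap.zero_apply] at hv
  rw [Submodule.mem_bot]
  refine (smul_eq_zero.1 hv.symm).resolve_left ?_
  rintro h
  have : n = 0 := by exact_mod_cast h
  subst this
  simp at hn

/-- the span of an ideal in `End V` -/
def idealSub {L : LieSubalgebra K (Module.End K V)} (I : LieIdeal K L) :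
    Submodule K (Module.End K V) :=
  (I : Submodule K L).map (L : Submodule K (Module.End K V)).subtype

lemma mem_idealSub {L : LieSubalgebra K (Module.End K V)} {I : LieIdeal K L}
    {X : Module.End K V} : X ∈ idealSub I ↔ ∃ hX : X ∈ L, (⟨X, hX⟩ : L) ∈ I := by
  constructor
  · rintro ⟨x, hx, rfl⟩
    exact ⟨x.2, hx⟩
  · rintro ⟨hX, hx⟩
    exact ⟨⟨X, hX⟩, hx, rfl⟩

theorem main_sp (S : Setup ψ s) (hgen : Gen s)
    (two_ideals : ∀ {I J : Submodule K (Module.End K V)}, I ≤ s → J ≤ s →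
      (∀ X ∈ s, ∀ Y ∈ I, X * Y - Y * X ∈ I) → (∀ X ∈ s, ∀ Y ∈ J, X * Y - Y * X ∈ J) →
      (∀ X ∈ I, ∀ Y ∈ J, X * Y = Y * X) → s ≤ I ⊔ J → I ≠ ⊥ → J ≠ ⊥ →
      ∀ {h : Module.End K V}, h ∈ s → Integral h →
      Module.finrank K (oddPart h) % 4 = 2 →
      2 * Module.finrank K (oddPart h) = Module.finrank K V)
    {h : Module.End K V} (hh : h ∈ s) (hint : Integral h)
    (hmod : Module.finrank K (oddPart h) % 4 = 2)
    (hne : 2 * Module.finrank K (oddPart h) ≠ Module.finrank K V)
    {X : Module.End K V} (hX : ∀ x y, ψ (X x) y = - ψ x (X y)) : X ∈ s := by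
  by_contra hXs
  have heven : ∀ N ∈ s, N * N = 0 → Even (finrank K (LinearMap.range N)) := by
    intro N hN hNN
    by_contra hodd
    exact hXs (S.main_odd hgen hN hNN (Nat.not_even_iff_odd.1 hodd) hX)
  have h0 : h ≠ 0 := by
    rintro rfl
    rw [oddPart_zero, finrank_bot] at hmod
    norm_num at hmod
  obtain ⟨g, hg, hgg⟩ : ∃ g ∈ s, g * g = (4 : K)⁻¹ • 1 := by
    by_contra hcon
    push Not at hcon
    have h1 : s ≤ ⊥ := by
      refine hgen ⊥ ?_ (fun g hg hgg => absurd hgg (hcon g hg))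
      intro A hA B hB
      rw [Submodule.mem_bot] at hA hB ⊢
      rw [hA, hB]; simp
    exact h0 (by simpa using h1 hh)
  obtain ⟨u, hu, huu, huh⟩ := Pool.Agent.Helper68.NP.exists_comm_half S hh hint hg hgg
  obtain ⟨k, hk⟩ := Pool.Agent.Helper79.NP.trace_sq hint
  by_cases hsim : LieAlgebra.IsSimple K (toLie s S.closed)
  · obtain ⟨m, hm⟩ := simple_case S hsim heven hh hint hu huu huh
    rw [hk] at hm
    have h1 : (Module.finrank K (oddPart h) : ℤ) + 4 * k = 4 * m := by exact_mod_cast hm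
    omega
  · set L := toLie s S.closed with hL
    have hnt : Nontrivial V := S.irred.1
    have i1 : LieModule.IsIrreducible K L V := by
      refine LieModule.IsIrreducible.mk fun N hN => ?_
      have h1 := S.irred.2 (N : Submodule K V)
        (fun X hX w hw => N.lie_mem (x := (⟨X, hX⟩ : L)) hw)
      rcases h1 with h1 | h1
      · exact absurd ((LieSubmodule.toSubmodule_eq_bot N).1 h1) hN
      · exact (LieSubmodule.toSubmodule_eq_top (N := N)).1 h1
    have i2 : LieModule.IsFaithful K L V := by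
      rw [isFaithful_iff']
      intro x hx
      ext v
      exact hx v
    have i0 : HasTrivialRadical K L :=
      hasTrivialRadical_of_isIrreducible_of_isFaithful K L V (fun x => S.trace_eq_zero x.2)
    have i3 : IsKilling K L := inferInstance
    have hL0 : (⟨h, hh⟩ : L) ≠ 0 := fun h1 => h0 (congrArg Subtype.val h1)
    have hna : ¬ IsLieAbelian L := by
      intro hab
      have h1 : Subsingleton L := (IsKilling.isLieAbelian_iff_subsingleton (R := K) (L := L)).1 hab
      exact hL0 (Subsingleton.elim _ _)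
    obtain ⟨I, hI1, hI2⟩ : ∃ I : LieIdeal K L, I ≠ ⊥ ∧ I ≠ ⊤ := by
      by_contra hcon
      push Not at hcon
      exact hsim ⟨fun I => or_iff_not_imp_left.2 (hcon I), hna⟩
    have hc := I.isCompl_killingCompl
    set J : LieIdeal K L := I.killingCompl with hJ
    have hJ0 : J ≠ ⊥ := by
      intro h1
      rw [h1] at hc
      exact hI2 (eq_top_of_isCompl_bot hc)
    refine hne (two_ideals (I := idealSub I) (J := idealSub J) ?_ ?_ ?_ ?_ ?_ ?_ ?_ ?_ hh hint hmod)
    · intro Y hY
      exact (mem_idealSub.1 hY).1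
    · intro Y hY
      exact (mem_idealSub.1 hY).1
    · intro Y hY Z hZ
      obtain ⟨hZ1, hZ2⟩ := mem_idealSub.1 hZ
      exact mem_idealSub.2 ⟨_, lie_mem_right K L I (⟨Y, hY⟩ : L) ⟨Z, hZ1⟩ hZ2⟩
    · intro Y hY Z hZ
      obtain ⟨hZ1, hZ2⟩ := mem_idealSub.1 hZ
      exact mem_idealSub.2 ⟨_, lie_mem_right K L J (⟨Y, hY⟩ : L) ⟨Z, hZ1⟩ hZ2⟩
    · intro Y hY Z hZ
      obtain ⟨hY1, hY2⟩ := mem_idealSub.1 hY
      obtain ⟨hZ1, hZ2⟩ := mem_idealSub.1 hZ
      have h1 : ⁅(⟨Y, hY1⟩ : L), (⟨Z, hZ1⟩ : L)⁆ ∈ I ⊓ J :=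
        ⟨lie_mem_left K L I _ _ hY2, lie_mem_right K L J _ _ hZ2⟩
      rw [hc.inf_eq_bot, LieSubmodule.mem_bot] at h1
      have h2 : Y * Z - Z * Y = 0 := congrArg Subtype.val h1
      exact sub_eq_zero.1 h2
    · intro Y hY
      have h1 : (⟨Y, hY⟩ : L) ∈ I ⊔ J := by rw [hc.sup_eq_top]; exact LieSubmodule.mem_top _
      obtain ⟨a, ha, b, hb, hab⟩ := (LieSubmodule.mem_sup _ _ _).1 h1
      have h2 : (a : Module.End K V) + b = Y := congrArg Subtype.val hab
      rw [← h2]
      exact Submodule.add_mem_sup (mem_idealSub.2 ⟨a.2, ha⟩) (mem_idealSub.2 ⟨b.2, hb⟩)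
    · intro h1
      apply hI1
      rw [eq_bot_iff]
      intro a ha
      have h2 : (a : Module.End K V) ∈ idealSub I := mem_idealSub.2 ⟨a.2, ha⟩
      rw [h1, Submodule.mem_bot] at h2
      rw [LieSubmodule.mem_bot]
      exact Subtype.ext h2
    · intro h1
      apply hJ0
      rw [eq_bot_iff]
      intro a ha
      have h2 : (a : Module.End K V) ∈ idealSub J := mem_idealSub.2 ⟨a.2, ha⟩
      rw [h1, Submodule.mem_bot] at h2
      rw [LieSubmodule.mem_bot]
      exact Subtype.ext h2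

end Pool.Agent.Helper98.NP
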