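import Pool.Agent.Helper98.NP.Slope

/-!
# MP_09799c_ag: a Newton polygon criterion for full symplectic monodromy

`V` is a symplectic space over an algebraically closed field of characteristic zero, `g` is a Lie
algebra of symplectic similitudes acting irreducibly on `V` and generated, as a Lie algebra, by
the idempotents which it contains, and `γ` is a symplectic similitude with multiplier `c` which
normalizes `g`. Let `v` be a homomorphism from the multiplicative group of the field to the
rational numbers such that `2 v ν - v c` is an integer for every eigenvalue `ν` of `γ`, and let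
`m` be the number of eigenvalues `ν`, counted with algebraic multiplicity, for which this integer
is odd. If `m` is congruent to `2` modulo `4` and `m` is different from `dim V / 2`, then `g`
contains the symplectic Lie algebra.

In the application `g` is the Lie algebra of the `ℓ`-adic monodromy group of an abelian variety
without extra endomorphisms, the idempotents are the (weak) Hodge cocharacters, `γ` is a Frobenius
element at a place of good reduction, `v` is the `p`-adic valuation, scaled so that all the
numbers `2 v ν - v c` are integers and at least one of them is odd; `m` is the number of slopes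
whose distance from `1 / 2` is an odd multiple of the chosen unit.
-/

namespace Pool.Agent.Results.MP_09799c_ag.NewtonPolygon

open Pool.Agent.Helper66.OTR Pool.Agent.Helper98.NP

theorem result {K V : Type*} [Field K] [IsAlgClosed K] [CharZero K] [AddCommGroup V] [Module K V]
    [FiniteDimensional K V]
    -- a symplectic form
    (ψ : LinearMap.BilinForm K V) (hnd : ψ.Nondegenerate) (halt : ∀ x, ψ x x = 0)
    -- a Lie algebra `g` of symplectic similitudes
    (g : Submodule K (Module.End K V))
    (hLie : ∀ X ∈ g, ∀ Y ∈ g, X * Y - Y * X ∈ g)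
    (hgsp : ∀ X ∈ g, ∃ t : K, ∀ x y, ψ (X x) y + ψ x (X y) = t * ψ x y)
    -- acting irreducibly
    (hirr : ∀ W : Submodule K V, (∀ X ∈ g, ∀ w ∈ W, X w ∈ W) → W = ⊥ ∨ W = ⊤)
    -- generated by its idempotents
    (hgen : ∀ g' : Submodule K (Module.End K V), (∀ X ∈ g', ∀ Y ∈ g', X * Y - Y * X ∈ g') →
      (∀ e ∈ g, e * e = e → e ∈ g') → g ≤ g')
    -- a symplectic similitude `γ` with multiplier `c`, which normalizes `g`
    (γ : V ≃ₗ[K] V) (c : K) (hsim : ∀ x y, ψ (γ x) (γ y) = c * ψ x y)
    (hnorm : ∀ X ∈ g, (γ : V →ₗ[K] V) ∘ₗ X ∘ₗ (γ.symm : V →ₗ[K] V) ∈ g)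
    -- a homomorphism from the nonzero elements of `K` to the rational numbers
    (v : K → ℚ) (hv : ∀ a b : K, a ≠ 0 → b ≠ 0 → v (a * b) = v a + v b)
    -- the numbers `2 v ν - v c` are integers
    (hint : ∀ ν : K, Module.End.HasEigenvalue (γ : V →ₗ[K] V) ν → ∃ n : ℤ, 2 * v ν - v c = n)
    -- the number of eigenvalues, with multiplicities, for which this integer is odd
    (m : ℕ) (hm : Module.finrank K (⨆ (ν : K) (_ : ∃ n : ℤ, Odd n ∧ 2 * v ν - v c = n),
      Module.End.maxGenEigenspace (γ : V →ₗ[K] V) ν : Submodule K V) = m)
    (hmod : m % 4 = 2) (hne : 2 * m ≠ Module.finrank K V) :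
    ∀ X : Module.End K V, (∀ x y, ψ (X x) y + ψ x (X y) = 0) → X ∈ g := by
  have hnt : Nontrivial V := by
    by_contra h
    rw [not_nontrivial_iff_subsingleton] at h
    have h1 : m = 0 := by rw [← hm]; exact Module.finrank_zero_of_subsingleton
    rw [h1] at hmod
    norm_num at hmod
  have S : Setup ψ (spart ψ g) := spart_setup hnd halt hLie hgsp ⟨hnt, hirr⟩
  have hs : ∀ X ∈ spart ψ g, cj γ X ∈ spart ψ g := spart_norm hsim hnorm
  subst hm
  intro X hX
  refine sp_le_of_spart hnd halt hLie S ?_ (fun x y => eq_neg_of_add_eq_zero_left (hX x y))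
  intro Y hY
  exact slope_sp S (spart_gen hnd hgsp hgen) hsim hs hv hint hmod hne hY

end Pool.Agent.Results.MP_09799c_ag.NewtonPolygon
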