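import Mathlib

/-!
# Skew forms live in even dimension
-/

namespace Pool.Agent.Helper98.NP

open Module

lemma even_of_skew {K W : Type*} [Field K] [CharZero K] [AddCommGroup W] [Module K W]
    [FiniteDimensional K W] (B : LinearMap.BilinForm K W) (hnd : B.Nondegenerate)
    (hsk : ∀ v w, B w v = - B v w) : Even (finrank K W) := by
  classical
  let b := Module.finBasis K W
  have h1 : (LinearMap.BilinForm.toMatrix b B).det ≠ 0 :=
    (LinearMap.BilinForm.nondegenerate_iff_det_ne_zero b).1 hnd
  have h2 : (LinearMap.BilinForm.toMatrix b B).transpose = - LinearMap.BilinForm.toMatrix b B := by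
    ext i j
    rw [Matrix.transpose_apply, Matrix.neg_apply, LinearMap.BilinForm.toMatrix_apply,
      LinearMap.BilinForm.toMatrix_apply, hsk]
  have h3 := Matrix.det_transpose (LinearMap.BilinForm.toMatrix b B)
  rw [h2, Matrix.det_neg, Fintype.card_fin] at h3
  by_contra hodd
  rw [Nat.not_even_iff_odd] at hodd
  rw [hodd.neg_one_pow, neg_one_mul] at h3
  have h4 : (2 : K) * (LinearMap.BilinForm.toMatrix b B).det = 0 := by linear_combination (-1 : K) * h3
  rcases mul_eq_zero.1 h4 with h | h
  · exact two_ne_zero h
  · exact h1 h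

end Pool.Agent.Helper98.NP
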