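import Pool.Agent.Helper98.NP.Wt5
import Pool.Agent.Helper98.NP.Skew

/-!
# The length of a chain from `l` to `-l` is odd when the multiplicity of `l` is odd
-/

namespace Pool.Agent.Helper98.NP

set_option linter.unusedSectionVars false

open LieAlgebra LieModule Module LieAlgebra.IsKilling

variable {K L V : Type*} [Field K] [LieRing L] [LieAlgebra K L]
  [AddCommGroup V] [Module K V] [LieRingModule L V] [LieModule K L V]
  [CharZero K] [FiniteDimensional K L] [IsKilling K L] {H : LieSubalgebra K L}
  [H.IsCartanSubalgebra] [IsTriangularizable K H L] [FiniteDimensional K V]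

/-- lowering operators are injective on weight spaces where the pairing is one -/
lemma f_inj {α : Weight K H L} (m : Mn V α) {h e f : L} (t : IsSl2Triple h e f)
    (hα : α.IsNonZero) (he : e ∈ rootSpace H α) (hf : f ∈ rootSpace H (-α : H → K))
    {l : Dual K H} (h1 : l (coroot α) = 1) {v : V} (hv : v ∈ ws V H l) (h0 : v ≠ 0) :
    ⁅f, v⁆ ≠ 0 := by
  have hh := t.h_eq_coroot hα he hf
  have hev : ⁅e, v⁆ = 0 := by
    by_contra hne
    have h2 : ⁅e, v⁆ ∈ ws V H (l + α.toLinear) :=
      lie_mem_ws he hv (fun x => by simp [add_comm])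
    rcases m _ (mem_wts_of_vec h2 hne) with h3 | h3 | h3 <;>
    · rw [LinearMap.add_apply, h1] at h3
      have h4 : Weight.toLinear K H L α (coroot α) = 2 := root_apply_coroot hα
      rw [h4] at h3
      norm_num at h3
  have h5 : ⁅e, ⁅f, v⁆⁆ = v := by
    have := leibniz_lie e f v
    rw [t.lie_e_f, hev, lie_zero, add_zero, hh, hv, h1, one_smul] at this
    exact this
  intro h; rw [h, lie_zero] at h5; exact h0 h5.symm

/-- the lowering operators along a list of roots -/
lemma prod_inj (hm : ∀ α : H.root, Mn V α.1) {κ : Type*} (β : κ → H.root) (e f : κ → L)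
    (h : κ → L) (t : ∀ j, IsSl2Triple (h j) (e j) (f j))
    (he : ∀ j, e j ∈ rootSpace H (β j).1) (hf : ∀ j, f j ∈ rootSpace H (-(β j).1 : H → K))
    (js : List κ) (hnd : js.Nodup)
    (horth : ∀ i j, i ≠ j → (β i).1 (coroot (β j).1) = 0)
    {l : Dual K H} (hl : ∀ j, l (coroot (β j).1) = 1) {v : V} (hv : v ∈ ws V H l) :
    (js.map (fun j => toEnd K L V (f j))).prod v ∈
      ws V H (l - (js.map (fun j => Weight.toLinear K H L (β j).1)).sum) ∧
    (v ≠ 0 → (js.map (fun j => toEnd K L V (f j))).prod v ≠ 0) := by
  induction js with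
  | nil => simpa using hv
  | cons a js ih =>
    obtain ⟨ha, hnd'⟩ := List.nodup_cons.1 hnd
    obtain ⟨h1, h2⟩ := ih hnd'
    set w := (js.map (fun j => toEnd K L V (f j))).prod v with hw
    set l' := l - (js.map (fun j => Weight.toLinear K H L (β j).1)).sum with hl'
    have hα : (β a).1.IsNonZero := LieSubalgebra.isNonZero_coe_root _
    have h3 : l' (coroot (β a).1) = 1 := by
      rw [hl', LinearMap.sub_apply, hl a]
      have : ∀ js : List κ, a ∉ js →
          (js.map (fun j => Weight.toLinear K H L (β j).1)).sum (coroot (β a).1) = 0 := by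
        intro js
        induction js with
        | nil => intro _; simp
        | cons b js ih =>
          intro hb
          rw [List.map_cons, List.sum_cons, LinearMap.add_apply,
            ih (fun h => hb (List.mem_cons_of_mem _ h)), add_zero]
          exact horth b a (fun h => hb (h ▸ List.mem_cons_self))
      rw [this js ha, sub_zero]
    simp only [List.map_cons, List.prod_cons, List.sum_cons]
    constructor
    · rw [Module.End.mul_apply, toEnd_apply_apply]
      refine lie_mem_ws (hf a) h1 (fun x => ?_)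
      rw [hl']
      simp only [LinearMap.sub_apply, LinearMap.add_apply, Pi.neg_apply, Weight.toLinear_apply]
      ring
    · intro h0
      rw [Module.End.mul_apply, toEnd_apply_apply]
      exact f_inj (hm (β a)) (t a) hα (he a) (hf a) h3 h1 (h2 h0)

/-- adjoint of a product of elements of the Lie algebra -/
lemma adj_prod {ψ : LinearMap.BilinForm K V} (hinv : ∀ (x : L) (v w : V), ψ ⁅x, v⁆ w = - ψ v ⁅x, w⁆)
    (js : List L) (v w : V) : ψ ((js.map (toEnd K L V)).prod v) w =
      (-1) ^ js.length * ψ v ((js.reverse.map (toEnd K L V)).prod w) := by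
  induction js generalizing v w with
  | nil => simp
  | cons a js ih =>
    rw [List.map_cons, List.prod_cons, Module.End.mul_apply, toEnd_apply_apply, hinv, ih,
      List.reverse_cons, List.map_append, List.prod_append, Module.End.mul_apply,
      List.length_cons, pow_succ]
    simp

/-- root vectors of roots whose sum is neither zero nor a root commute -/
lemma lie_eq_zero_of_sum {α β : H.root} (h0 : α.1.toLinear + β.1.toLinear ≠ 0)
    (h1 : ∀ γ : H.root, γ.1.toLinear ≠ α.1.toLinear + β.1.toLinear) {x y : L}
    (hx : x ∈ rootSpace H (-α.1 : H → K)) (hy : y ∈ rootSpace H (-β.1 : H → K)) :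
    ⁅x, y⁆ = 0 := by
  by_contra hne
  have h2 : ⁅x, y⁆ ∈ rootSpace H (-α.1 + -β.1 : H → K) :=
    LieAlgebra.lie_mem_genWeightSpace_of_mem_genWeightSpace hx hy
  have h3 : genWeightSpace L (-α.1 + -β.1 : H → K) ≠ ⊥ := by
    intro h
    rw [rootSpace, h, LieSubmodule.mem_bot] at h2
    exact hne h2
  let γ : Weight K H L := ⟨_, h3⟩
  have h4 : (-γ).toLinear = α.1.toLinear + β.1.toLinear := by
    ext x
    show (-γ) x = α.1 x + β.1 x
    rw [Weight.coe_neg, Pi.neg_apply]
    show -(-α.1 x + -β.1 x) = _
    ring
  have h5 : (-γ).IsNonZero := by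
    intro hz
    apply h0
    rw [← h4]
    exact Weight.coe_toLinear_eq_zero_iff.2 hz
  have h6 : -γ ∈ H.root := by simpa using h5
  exact h1 ⟨-γ, h6⟩ h4

/-- **Parity of chains.** -/
theorem odd_chain [IsAlgClosed K] [LieModule.IsIrreducible K L V]
    {ψ : LinearMap.BilinForm K V} (hnd : ψ.Nondegenerate) (hsk : ∀ x y, ψ x y = - ψ y x)
    (hinv : ∀ (x : L) (v w : V), ψ ⁅x, v⁆ w = - ψ v ⁅x, w⁆)
    (hm : ∀ α : H.root, Mn V α.1) {l : Dual K H} (hodd : Odd (finrank K (ws V H l)))
    {r : ℕ} {β : Fin r → H.root} (hβ : Chain (rootSystem H) l (-l) β) : Odd r := by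
  classical
  by_contra hr
  rw [Nat.not_odd_iff_even] at hr
  choose h e f t he hf using fun j => exists_isSl2Triple_of_weight_isNonZero
    (LieSubalgebra.isNonZero_coe_root (β j))
  have horth : ∀ i j, i ≠ j → (β i).1 (coroot (β j).1) = 0 := fun i j hij => hβ.orth i j hij
  have hl : ∀ j, l (coroot (β j).1) = 1 := fun j => hβ.top j
  set js : List (Fin r) := List.finRange r with hjs
  have hsum : l - (js.map (fun j => Weight.toLinear K H L (β j).1)).sum = -l := by
    have h1 : (js.map (fun j => Weight.toLinear K H L (β j).1)).sum =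
        ∑ j, (rootSystem H).root (β j) := by
      rw [hjs, ← List.ofFn_eq_map, List.sum_ofFn]
      rfl
    rw [h1, ← hβ.sum]
    abel
  set P : Module.End K V := (js.map (fun j => toEnd K L V (f j))).prod with hP
  have hPl : ∀ v ∈ ws V H l, P v ∈ ws V H (-l) ∧ (v ≠ 0 → P v ≠ 0) := by
    intro v hv
    have h1 := prod_inj hm β e f h t he hf js (List.nodup_finRange r) horth hl hv
    rw [hsum] at h1
    exact h1
  have hcomm : ∀ i j, toEnd K L V (f i) * toEnd K L V (f j) =
      toEnd K L V (f j) * toEnd K L V (f i) := by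
    intro i j
    by_cases hij : i = j
    · rw [hij]
    have h1 : ⁅f i, f j⁆ = 0 := by
      refine lie_eq_zero_of_sum (α := β i) (β := β j) ?_ ?_ (hf i) (hf j)
      · intro h0
        have h2 : (β j).1.toLinear = - (β i).1.toLinear := (neg_eq_of_add_eq_zero_right h0).symm
        have h3 := horth j i (Ne.symm hij)
        have h4 : (β j).1 (coroot (β i).1) = -2 := by
          have := congrArg (fun g => g (coroot (β i).1)) h2
          have h5 : (β i).1 (coroot (β i).1) = 2 :=
            root_apply_coroot (LieSubalgebra.isNonZero_coe_root (β i))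
          simp only [Weight.toLinear_apply, LinearMap.neg_apply] at this
          rw [this, h5]
        rw [h3] at h4
        norm_num at h4
      · intro γ hγ
        exact hβ.str i j hij ⟨γ, hγ⟩
    ext v
    have h2 := leibniz_lie (f i) (f j) v
    rw [h1, zero_lie, zero_add] at h2
    exact h2
  have hrev : ((js.map f).reverse.map (toEnd K L V)).prod = P := by
    rw [hP, List.map_reverse, List.map_map]
    have h1 : (js.map (toEnd K L V ∘ f)) = js.map (fun j => toEnd K L V (f j)) := rfl
    rw [h1]
    refine ((List.reverse_perm _).prod_eq' ?_)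
    rw [List.pairwise_reverse, List.pairwise_map]
    exact List.Pairwise.imp (fun {a b} _ => (hcomm b a)) (List.nodup_finRange r)
  have hadj : ∀ v w, ψ (P v) w = ψ v (P w) := by
    intro v w
    have h1 := adj_prod hinv (js.map f) v w
    rw [hrev, List.length_map, List.length_finRange, hr.neg_one_pow, one_mul, List.map_map] at h1
    exact h1
  let B : LinearMap.BilinForm K (ws V H l) :=
    (ψ.compl₂ P).domRestrict₁₂ (ws V H l) (ws V H l)
  have hB : ∀ v w : ws V H l, B v w = ψ v (P w) := fun v w => rfl
  have hBsk : ∀ v w, B w v = - B v w := by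
    intro v w
    rw [hB, hB, ← hadj, hsk]
  have hBnd : B.Nondegenerate := by
    have hl1 : ∀ v : ws V H l, (∀ w, B v w = 0) → v = 0 := by
      intro v hv
      by_contra hne
      have hne' : (v : V) ≠ 0 := fun h => hne (Subtype.ext h)
      obtain ⟨w, hw, h1⟩ := ws_pair hinv hnd ((hPl v v.2).1) ((hPl v v.2).2 hne')
      rw [neg_neg] at hw
      apply h1
      rw [hadj]
      exact hv ⟨w, hw⟩
    refine ⟨hl1, fun v hv => hl1 v (fun w => ?_)⟩
    rw [hBsk, hv w, neg_zero]
  have := even_of_skew B hBnd hBsk
  exact (Nat.not_odd_iff_even.2 this) hodd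

end Pool.Agent.Helper98.NP
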