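import Pool.Agent.Helper98.NP.Parity
import Pool.Agent.Helper98.NP.EvenQ
import Pool.Agent.Helper98.NP.LieDefs
import Pool.Agent.Helper38.NP.TwoLengths
import Pool.Agent.Helper79.NP.ExistsCartan

/-!
# The simple case
-/

namespace Pool.Agent.Helper98.NP

set_option linter.unusedSectionVars false

open LieAlgebra LieModule Module LieAlgebra.IsKilling Pool.Agent.Helper66.OTR

attribute [local instance 100] LieRing.ofAssociativeRing

variable {K V : Type*} [Field K] [CharZero K] [AddCommGroup V] [Module K V]
  [FiniteDimensional K V]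

lemma int_eigen {h : Module.End K V} (hint : Integral h) {c : K} {v : V} (hv : v ≠ 0)
    (hc : h v = c • v) : ∃ n : ℤ, c = n := by
  by_contra hcon
  push Not at hcon
  have h1 := (Module.End.eigenspaces_iSupIndep h) c
  have h2 : (⊤ : Submodule K V) ≤ ⨆ (j : K) (_ : j ≠ c), Module.End.eigenspace h j := by
    rw [← hint]
    exact iSup_le fun n => le_iSup₂_of_le (n : K) (hcon n).symm le_rfl
  have h3 := h1.mono_right h2
  rw [disjoint_top] at h3
  apply hv
  have h4 : v ∈ Module.End.eigenspace h c := Module.End.mem_eigenspace_iff.2 hc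
  rwa [h3, Submodule.mem_bot] at h4

/-- `(h - n)^2 x = 0` implies `(h - n) x = 0` -/
lemma semis {h : Module.End K V} (hint : Integral h) (c : K) {x : V}
    (hx : h (h x - c • x) = c • (h x - c • x)) : h x = c • x := by
  have h2 : ∀ μ, h.eigenspace μ ≤ h.maxGenEigenspace μ := fun μ =>
    Module.End.eigenspace_le_maxGenEigenspace
  have h1 := Module.End.independent_maxGenEigenspace h
  have h3 : h.eigenspace c ⊔ ⨆ (j : K) (_ : j ≠ c), h.maxGenEigenspace j = ⊤ := by
    rw [eq_top_iff, ← hint]
    refine iSup_le fun n => ?_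
    by_cases hn : (n : K) = c
    · rw [hn]; exact le_sup_left
    · exact le_trans (le_trans (h2 _) (le_iSup₂_of_le (n : K) hn le_rfl)) le_sup_right
  have h4 := h1 c
  have hy : x ∈ h.maxGenEigenspace c := by
    rw [Module.End.mem_maxGenEigenspace]
    refine ⟨2, ?_⟩
    rw [pow_two, Module.End.mul_apply]
    simp only [LinearMap.sub_apply, LinearMap.smul_apply, Module.End.one_apply]
    rw [hx, sub_self]
  have h5 : x ∈ h.eigenspace c ⊔ ⨆ (j : K) (_ : j ≠ c), h.maxGenEigenspace j := by
    rw [h3]; exact Submodule.mem_top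
  obtain ⟨a, ha, b, hb, hab⟩ := Submodule.mem_sup.1 h5
  have h6 : b ∈ h.maxGenEigenspace c := by
    have : b = x - a := by rw [← hab]; abel
    rw [this]
    exact Submodule.sub_mem _ hy (h2 c ha)
  have h7 : b = 0 := Submodule.disjoint_def.1 h4 b h6 hb
  rw [← hab, h7, add_zero]
  exact Module.End.mem_eigenspace_iff.1 ha

lemma ad_ss_int {h z : Module.End K V} (hint : Integral h)
    (hz : h * (h * z - z * h) - (h * z - z * h) * h = 0) : h * z - z * h = 0 := by
  have h0 : (⊤ : Submodule K V) ≤ LinearMap.ker (h * z - z * h) := by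
    rw [← hint]
    refine iSup_le fun n v hv => ?_
    rw [Module.End.mem_eigenspace_iff] at hv
    have e1 : (h * z - z * h) v = h (z v) - (n : K) • z v := by
      simp [hv]
    have e2 : h ((h * z - z * h) v) = (n : K) • (h * z - z * h) v := by
      have := congrArg (fun f => f v) hz
      simp only [LinearMap.sub_apply, Module.End.mul_apply, LinearMap.zero_apply, hv,
        map_smul, map_sub] at this ⊢
      have h2 := sub_eq_zero.1 this
      rw [h2]
    rw [LinearMap.mem_ker, e1]
    rw [e1] at e2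
    rw [semis hint _ e2, sub_self]
  rw [top_le_iff, LinearMap.ker_eq_top] at h0
  exact h0

lemma ad_ss_half {u z : Module.End K V} (huu : u * u = (4 : K)⁻¹ • 1)
    (hz : u * (u * z - z * u) - (u * z - z * u) * u = 0) : u * z - z * u = 0 := by
  have h1 : u * (u * z - z * u) + (u * z - z * u) * u = 0 := by
    have : u * (u * z - z * u) + (u * z - z * u) * u = (u * u) * z - z * (u * u) := by
      noncomm_ring
    rw [this, huu]
    simp
  have h2 : (2 : K) • (u * (u * z - z * u)) = 0 := by
    have : (2 : K) • (u * (u * z - z * u)) = (u * (u * z - z * u) + (u * z - z * u) * u) +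
      (u * (u * z - z * u) - (u * z - z * u) * u) := by
      rw [two_smul]; abel
    rw [this, h1, hz, add_zero]
  have h3 : u * (u * z - z * u) = 0 := (smul_eq_zero.1 h2).resolve_left two_ne_zero
  have h4 : (4 : K)⁻¹ • (u * z - z * u) = 0 := by
    have : (4 : K)⁻¹ • (u * z - z * u) = (u * u) * (u * z - z * u) := by
      rw [huu, smul_mul_assoc, one_mul]
    rw [this, mul_assoc, h3, mul_zero]
  exact (smul_eq_zero.1 h4).resolve_left (by norm_num)

variable [IsAlgClosed K]

section hall

variable {L : Type*} [LieRing L] [LieAlgebra K L] [LieRingModule L V] [LieModule K L V]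
  [FiniteDimensional K L] [IsKilling K L] {H : LieSubalgebra K L}
  [H.IsCartanSubalgebra] [IsTriangularizable K H L]
  [LieModule.IsIrreducible K L V]

lemma sq_zero_all (hm : ∀ α : H.root, Mn V α.1) (α : H.root) {e : L} (he : e ∈ rootSpace H α.1)
    (v : V) : ⁅e, ⁅e, v⁆⁆ = 0 := by
  have h0 : (⊤ : Submodule K V) ≤ LinearMap.ker (toEnd K L V e * toEnd K L V e) := by
    rw [← ws_top V H]
    refine iSup_le fun l v hv => ?_
    rw [LinearMap.mem_ker, Module.End.mul_apply, toEnd_apply_apply, toEnd_apply_apply]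
    by_contra hne
    have hv0 : v ≠ 0 := by rintro rfl; simp at hne
    have h1 : ⁅e, v⁆ ∈ ws V H (l + α.1.toLinear) := lie_mem_ws he hv (fun x => by simp [add_comm])
    have h2 : ⁅e, ⁅e, v⁆⁆ ∈ ws V H (l + α.1.toLinear + α.1.toLinear) :=
      lie_mem_ws he h1 (fun x => by simp [add_comm])
    have h3 := hm α _ (mem_wts_of_vec h2 hne)
    have h4 := hm α _ (mem_wts_of_vec hv hv0)
    have h5 : Weight.toLinear K H L α.1 (coroot α.1) = 2 :=
      root_apply_coroot (LieSubalgebra.isNonZero_coe_root α)
    rw [LinearMap.add_apply, LinearMap.add_apply, h5] at h3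
    rcases h4 with h4 | h4 | h4 <;> rw [h4] at h3 <;> norm_num at h3
  exact congrArg (fun f => f v) (LinearMap.ker_eq_top.1 (top_le_iff.1 h0))

end hall

variable {ψ : LinearMap.BilinForm K V} {s : Submodule K (Module.End K V)}

/-- **The simple case.** -/
theorem simple_case (S : Setup ψ s) (hsim : LieAlgebra.IsSimple K (toLie s S.closed))
    (heven : ∀ N ∈ s, N * N = 0 → Even (finrank K (LinearMap.range N)))
    {h u : Module.End K V} (hh : h ∈ s) (hint : Integral h) (hu : u ∈ s)
    (huu : u * u = (4 : K)⁻¹ • 1) (huh : u * h = h * u) :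
    ∃ m : ℤ, LinearMap.trace K V (h * h) = 4 * m := by
  classical
  set L := toLie s S.closed with hL
  have hnt : Nontrivial V := S.irred.1
  have i1 : LieModule.IsIrreducible K L V := by
    refine LieModule.IsIrreducible.mk fun N hN => ?_
    have h1 := S.irred.2 (N : Submodule K V)
      (fun X hX w hw => N.lie_mem (x := (⟨X, hX⟩ : L)) hw)
    rcases h1 with h1 | h1
    · exact absurd ((LieSubmodule.toSubmodule_eq_bot N).1 h1) hN
    · exact (LieSubmodule.toSubmodule_eq_top (N := N)).1 h1
  have i2 : LieModule.IsFaithful K L V := by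
    rw [isFaithful_iff']
    intro x hx
    ext v
    exact hx v
  have i3 : IsKilling K L := inferInstance
  obtain ⟨H, hH, hxH, hyH⟩ := Pool.Agent.Helper79.NP.exists_cartan (K := K)
    (x := (⟨h, hh⟩ : L)) (y := (⟨u, hu⟩ : L))
    (by
      apply Subtype.ext
      show h * u - u * h = 0
      rw [huh, sub_self])
    (by
      rintro ⟨z, hz⟩ h1
      apply Subtype.ext
      exact ad_ss_int hint (congrArg Subtype.val h1))
    (by
      rintro ⟨z, hz⟩ h1
      apply Subtype.ext
      exact ad_ss_half huu (congrArg Subtype.val h1))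
  have i4 : IsTriangularizable K H L := inferInstance
  have hinv : ∀ (x : L) (v w : V), ψ ⁅x, v⁆ w = - ψ v ⁅x, w⁆ := fun x v w => S.sp _ x.2 v w
  have hm : ∀ α : H.root, Mn V α.1 := all_mn (u := (⟨⟨u, hu⟩, hyH⟩ : H)) (fun v => by
    show u (u v) = (4 : K)⁻¹ • v
    rw [← Module.End.mul_apply, huu]; rfl)
  have hall : ∀ α : H.root, ∀ e ∈ rootSpace H α.1, ∀ v : V, ⁅e, ⁅e, v⁆⁆ = 0 :=
    fun α e he v => sq_zero_all hm α he v
  choose e he1 he2 using exists_rho (V := V) (H := H) hall
  set d : Dual K H → ℕ := fun l => finrank K (ws V H l) with hd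
  set ρ : H.root → ℕ := fun α => finrank K (LinearMap.range (toEnd K L V (e α))) with hρ
  have W : Wts (rootSystem H) (wts V H) :=
    { mini := fun l hl i => hm i l hl
      refl := fun l hl i => (hm i).refl_mem hl
      neg := fun l hl => neg_mem_wts hinv S.nd hl
      diff := fun l hl l' hl' => sub_mem_rootLattice hl hl'
      ne := fun i => exists_wt_ne i }
  have T : Tr (rootSystem H) (wts V H) d ρ :=
    { pos := fun l hl => by
        rw [mem_wts] at hl
        exact Submodule.one_le_finrank_iff.2 hl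
      neg := fun l => finrank_ws_neg hinv S.nd l
      tr := fun i x => he2 i x }
  have hρe : ∀ i, Even (ρ i) := by
    intro i
    refine heven _ (e i).2 ?_
    ext v
    exact he1 i v
  obtain ⟨m, hm'⟩ := even_q_of W T hρe
    (fun x hx l hl n hn hlx i j => Pool.Agent.Helper38.NP.not_two_lengths_of W T
      (fun l hl l' hl' => Pool.Agent.Helper12.NP.exists_chain W hl hl') hx hl hn hlx i j)
    (fun l hl hodd r β hβ => odd_chain S.nd S.neg hinv hm hodd hβ)
    (x := (⟨⟨h, hh⟩, hxH⟩ : H))
    (by
      intro l hl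
      obtain ⟨v, hv, h0⟩ := exists_vec hl
      exact int_eigen hint h0 (hv ⟨⟨h, hh⟩, hxH⟩))
  refine ⟨m, ?_⟩
  rw [← hm']
  exact trace_lie (V := V) (⟨⟨h, hh⟩, hxH⟩ : H) ⟨⟨h, hh⟩, hxH⟩

end Pool.Agent.Helper98.NP
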