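import Mathlib

/-!
# Weight spaces of an irreducible module over a Killing Lie algebra
-/

namespace Pool.Agent.Helper98.NP

set_option linter.unusedSectionVars false

open LieAlgebra LieModule Module LieAlgebra.IsKilling

variable {K L V : Type*} [Field K] [LieRing L] [LieAlgebra K L]
  [AddCommGroup V] [Module K V] [LieRingModule L V] [LieModule K L V]

section basic

variable (V) (H : LieSubalgebra K L)

/-- the honest weight space -/
def ws (χ : Dual K H) : Submodule K V where
  carrier := {v | ∀ x : H, ⁅(x : L), v⁆ = χ x • v}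
  zero_mem' := by intro x; simp
  add_mem' := by
    intro a b ha hb x
    rw [lie_add, ha x, hb x, smul_add]
  smul_mem' := by
    intro c a ha x
    rw [lie_smul, ha x, smul_comm]

variable {V H}

lemma mem_ws {χ : Dual K H} {v : V} : v ∈ ws V H χ ↔ ∀ x : H, ⁅(x : L), v⁆ = χ x • v := Iff.rfl

/-- eigenvectors for different characters of a family of operators are independent -/
lemma ws_indep : iSupIndep (fun χ : Dual K H => ws V H χ) := by
  classical
  rw [iSupIndep_iff_finsetSum_eq_zero_imp_eq_zero]
  intro s v hv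
  induction s using Finset.induction_on generalizing v with
  | empty => simp
  | insert a t ha ih =>
    intro hsum
    have key : ∀ x : H, ∀ b ∈ t, (b x - a x) • v b = 0 := by
      intro x
      have h1 : ∑ b ∈ insert a t, (b x - a x) • v b = 0 := by
        have e1 := congrArg (fun w => ⁅(x : L), w⁆) hsum
        simp only [lie_zero, lie_sum] at e1
        have e2 : ∑ b ∈ insert a t, ⁅(x : L), v b⁆ = ∑ b ∈ insert a t, b x • v b :=
          Finset.sum_congr rfl (fun b hb => hv b hb x)
        rw [e2] at e1
        simp only [sub_smul, Finset.sum_sub_distrib]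
        rw [e1, ← Finset.smul_sum, hsum, smul_zero, sub_zero]
      rw [Finset.sum_insert ha, sub_self, zero_smul, zero_add] at h1
      exact ih (fun b => (b x - a x) • v b)
        (fun b hb => (ws V H b).smul_mem _ (hv b (Finset.mem_insert_of_mem hb))) h1
    have hz : ∀ b ∈ t, v b = 0 := by
      intro b hb
      have hne : b ≠ a := fun h => ha (h ▸ hb)
      obtain ⟨x, hx⟩ : ∃ x, b x ≠ a x := by
        by_contra hcon
        push Not at hcon
        exact hne (LinearMap.ext hcon)
      exact (smul_eq_zero.1 (key x b hb)).resolve_left (sub_ne_zero.2 hx)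
    intro b hb
    rcases Finset.mem_insert.1 hb with rfl | hb
    · rw [Finset.sum_insert ha, Finset.sum_eq_zero hz, add_zero] at hsum
      exact hsum
    · exact hz b hb

end basic

section killing

variable [CharZero K] [FiniteDimensional K L] [IsKilling K L] {H : LieSubalgebra K L}
  [H.IsCartanSubalgebra] [IsTriangularizable K H L] 

lemma lie_mem_ws {α : H → K} {e : L} (he : e ∈ rootSpace H α) {χ χ' : Dual K H} {v : V}
    (hv : v ∈ ws V H χ) (hχ : ∀ x, χ' x = α x + χ x) : ⁅e, v⁆ ∈ ws V H χ' := by
  intro x
  have h1 : ⁅(x : L), e⁆ = α x • e := lie_eq_smul_of_mem_rootSpace he x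
  rw [leibniz_lie, h1, hv x, smul_lie, lie_smul, hχ x, add_smul]

lemma coe_lie_mem_ws (x : H) {χ : Dual K H} {v : V} (hv : v ∈ ws V H χ) :
    ⁅(x : L), v⁆ ∈ ws V H χ := by
  rw [hv x]; exact (ws V H χ).smul_mem _ hv

/-- every element of `L` is a sum of root vectors -/
lemma induct_L {p : L → Prop} (h0 : p 0) (hadd : ∀ x y, p x → p y → p (x + y))
    (hH : ∀ x : H, p x) (hroot : ∀ α : Weight K H L, α.IsNonZero → ∀ e ∈ rootSpace H α, p e)
    (x : L) : p x := by
  have h1 : x ∈ ⨆ α : Weight K H L, (rootSpace H α).toSubmodule := by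
    have := iSup_genWeightSpace_eq_top' K H L
    rw [← LieSubmodule.iSup_toSubmodule, this]; trivial
  induction h1 using Submodule.iSup_induction' with
  | mem α y hy =>
    by_cases hα : α.IsZero
    · have h2 : y ∈ rootSpace H (0 : H → K) := by
        have h3 : (α : H → K) = 0 := hα
        rw [← h3]; exact hy
      rw [rootSpace_zero_eq K L H] at h2
      exact hH ⟨y, h2⟩
    · exact hroot α hα y hy
  | zero => exact h0
  | add y z _ _ hy hz => exact hadd y z hy hz

/-- a set of characters closed under adding roots gives an `L`-submodule -/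
lemma ws_sup [LieModule.IsIrreducible K L V] (A : Set (Dual K H))
    (hA : ∀ χ ∈ A, ∀ α : Weight K H L, α.IsNonZero → (α.toLinear + χ) ∈ A)
    {χ₀ : Dual K H} (h₀ : χ₀ ∈ A) (hne : ws V H χ₀ ≠ ⊥) : ⨆ χ ∈ A, ws V H χ = ⊤ := by
  set U : Submodule K V := ⨆ χ ∈ A, ws V H χ with hU
  have hle : ∀ χ ∈ A, ws V H χ ≤ U := fun χ hχ => le_iSup₂_of_le χ hχ le_rfl
  have hst : ∀ (x : L) (v : V), v ∈ U → ⁅x, v⁆ ∈ U := by
    intro x
    refine induct_L (H := H) (p := fun x => ∀ v : V, v ∈ U → ⁅x, v⁆ ∈ U) ?_ ?_ ?_ ?_ x
    · intro v _; simp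
    · intro x y hx hy v hv
      rw [add_lie]; exact U.add_mem (hx v hv) (hy v hv)
    · intro x v hv
      have : U ≤ U.comap (toEnd K L V x) := by
        rw [hU]
        refine iSup₂_le fun χ hχ w hw => ?_
        exact hle χ hχ (coe_lie_mem_ws x hw)
      exact this hv
    · intro α hα e he v hv
      have : U ≤ U.comap (toEnd K L V e) := by
        rw [hU]
        refine iSup₂_le fun χ hχ w hw => ?_
        exact hle _ (hA χ hχ α hα) (lie_mem_ws he hw (fun x => rfl))
      exact this hv
  let U' : LieSubmodule K L V := { U with lie_mem := fun {x v} hv => hst x v hv }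
  have h1 : U' = ⊤ := by
    rcases eq_bot_or_eq_top U' with h | h
    · exfalso
      apply hne
      rw [eq_bot_iff]
      refine (hle χ₀ h₀).trans ?_
      have : (U' : Submodule K V) = ⊥ := by rw [h]; rfl
      exact this.le
    · exact h
  have h2 : (U' : Submodule K V) = ⊤ := by rw [h1]; rfl
  exact h2

end killing

end Pool.Agent.Helper98.NP
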