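import Pool.Agent.Helper98.NP.Wt

/-!
# Weights: finiteness, trace formula, root lattice
-/

namespace Pool.Agent.Helper98.NP

set_option linter.unusedSectionVars false

open LieAlgebra LieModule Module LieAlgebra.IsKilling

variable {K L V : Type*} [Field K] [LieRing L] [LieAlgebra K L]
  [AddCommGroup V] [Module K V] [LieRingModule L V] [LieModule K L V]
  [CharZero K] [FiniteDimensional K L] [IsKilling K L] {H : LieSubalgebra K L}
  [H.IsCartanSubalgebra] [IsTriangularizable K H L] [FiniteDimensional K V]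

variable (V H) in
lemma ws_finite : {χ : Dual K H | ws V H χ ≠ ⊥}.Finite :=
  WellFoundedGT.finite_ne_bot_of_iSupIndep ws_indep

variable (V H) in
/-- the set of weights -/
noncomputable def wts : Finset (Dual K H) := (ws_finite V H).toFinset

lemma mem_wts {χ : Dual K H} : χ ∈ wts V H ↔ ws V H χ ≠ ⊥ := by
  simp [wts]

/-- there is a weight -/
lemma exists_ws [IsAlgClosed K] [Nontrivial V] : ∃ χ : Dual K H, ws V H χ ≠ ⊥ := by
  obtain ⟨χ, hχ⟩ := exists_nontrivial_weightSpace_of_isNilpotent K H V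
  refine ⟨χ, ?_⟩
  obtain ⟨⟨v, hv⟩, hv0⟩ := exists_ne (0 : weightSpace V χ)
  rw [mem_weightSpace] at hv
  intro h
  have h1 : v ∈ ws V H χ := hv
  rw [h, Submodule.mem_bot] at h1
  exact hv0 (Subtype.ext h1)

variable [IsAlgClosed K] [LieModule.IsIrreducible K L V]

variable (K L V) in
lemma nontrivial_of_irred (H : LieSubalgebra K L) [H.IsCartanSubalgebra] : Nontrivial V := by
  have h : Nontrivial (LieSubmodule K L V) := inferInstance
  by_contra hcon
  rw [not_nontrivial_iff_subsingleton] at hcon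
  obtain ⟨a, b, hab⟩ := exists_pair_ne (LieSubmodule K L V)
  apply hab
  ext x
  have : x = 0 := Subsingleton.elim _ _
  rw [this]
  simp

variable (V H) in
lemma ws_top : ⨆ χ : Dual K H, ws V H χ = ⊤ := by
  have := nontrivial_of_irred K L V H
  obtain ⟨χ₀, h0⟩ := exists_ws (V := V) (H := H)
  have h := ws_sup (V := V) (H := H) Set.univ (fun _ _ _ _ => Set.mem_univ _) (Set.mem_univ χ₀) h0
  simpa using h

lemma ws_coset (A : Set (Dual K H))
    (hA : ∀ χ ∈ A, ∀ α : Weight K H L, α.IsNonZero → (α.toLinear + χ) ∈ A)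
    {χ₀ χ₁ : Dual K H} (h₀ : χ₀ ∈ A) (hne : ws V H χ₀ ≠ ⊥) (hne' : ws V H χ₁ ≠ ⊥) : χ₁ ∈ A := by
  by_contra hcon
  have h1 := ws_sup (V := V) A hA h₀ hne
  have h2 := (ws_indep (V := V) (H := H)).disjoint_biSup (x := χ₁) (y := A) hcon
  rw [h1, disjoint_top] at h2
  exact hne' h2

variable (V H) in
lemma ws_internal [DecidableEq (Dual K H)] : DirectSum.IsInternal (fun χ : Dual K H => ws V H χ) :=
  DirectSum.isInternal_submodule_of_iSupIndep_of_iSup_eq_top ws_indep (ws_top V H)

/-- trace formula -/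
lemma trace_ws {f : Module.End K V} {c : Dual K H → K}
    (hf : ∀ χ, ∀ v ∈ ws V H χ, f v = c χ • v) :
    LinearMap.trace K V f = ∑ χ ∈ wts V H, (finrank K (ws V H χ) : K) * c χ := by
  classical
  have hm : ∀ χ, Set.MapsTo f (ws V H χ) (ws V H χ) := by
    intro χ v hv
    rw [hf χ v hv]
    exact (ws V H χ).smul_mem _ hv
  rw [LinearMap.trace_eq_sum_trace_restrict' (ws_internal V H) (ws_finite V H) hm]
  refine Finset.sum_congr rfl (fun χ _ => ?_)
  have : f.restrict (hm χ) = c χ • (1 : Module.End K (ws V H χ)) := by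
    ext v
    exact hf χ v v.2
  rw [this, map_smul, LinearMap.trace_one, smul_eq_mul, mul_comm]

lemma trace_lie (x y : H) :
    LinearMap.trace K V (toEnd K L V x * toEnd K L V y) =
      ∑ χ ∈ wts V H, (finrank K (ws V H χ) : K) * (χ x * χ y) := by
  apply trace_ws
  intro χ v hv
  rw [Module.End.mul_apply, toEnd_apply_apply, toEnd_apply_apply, hv y, lie_smul, hv x, smul_smul,
    mul_comm]

/-- differences of weights are in the root lattice -/
lemma sub_mem_rootLattice {l l' : Dual K H} (hl : l ∈ wts V H) (hl' : l' ∈ wts V H) :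
    l - l' ∈ AddSubgroup.closure (Set.range (rootSystem H).root) := by
  rw [mem_wts] at hl hl'
  refine ws_coset (V := V) {χ | χ - l' ∈ AddSubgroup.closure (Set.range (rootSystem H).root)}
    ?_ (χ₀ := l') ?_ hl' hl
  · intro χ hχ α hα
    have hα' : α ∈ H.root := by simpa using hα
    have h1 : α.toLinear ∈ AddSubgroup.closure (Set.range (rootSystem H).root) :=
      AddSubgroup.subset_closure ⟨⟨α, hα'⟩, rfl⟩
    have h2 := AddSubgroup.add_mem _ h1 hχ
    show _ ∈ AddSubgroup.closure _
    rwa [add_sub_assoc]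
  · show l' - l' ∈ AddSubgroup.closure (Set.range (rootSystem H).root)
    rw [sub_self]; exact AddSubgroup.zero_mem _

end Pool.Agent.Helper98.NP
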