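import Pool.Agent.Helper98.NP.Wt2

/-!
# Minuscule roots
-/

namespace Pool.Agent.Helper98.NP

set_option linter.unusedSectionVars false

open LieAlgebra LieModule Module LieAlgebra.IsKilling

section sl2

variable {K L V : Type*} [Field K] [LieRing L] [LieAlgebra K L]
  [AddCommGroup V] [Module K V] [LieRingModule L V] [LieModule K L V]
  [CharZero K]

/-- a quadratic `sl2`-triple satisfies the relations of `Trip` -/
lemma quad_rel {h e f : L} (t : IsSl2Triple h e f) (he : ∀ v : V, ⁅e, ⁅e, v⁆⁆ = 0) :
    toEnd K L V e * toEnd K L V f * toEnd K L V e = toEnd K L V e := by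
  set E : Module.End K V := toEnd K L V e with hE
  set F : Module.End K V := toEnd K L V f with hF
  set G : Module.End K V := toEnd K L V h with hG
  have EE : E * E = 0 := by ext w; exact he w
  have EF : E * F - F * E = G := by
    rw [hG, ← t.lie_e_f]
    ext w
    simp [hE, hF]
  have GE : G * E - E * G = (2 : K) • E := by
    ext w
    have h1 : ⁅⁅h, e⁆, w⁆ = (2 : K) • ⁅e, w⁆ := by rw [t.lie_h_e_smul K, smul_lie]
    rw [lie_lie] at h1
    exact h1
  rw [← EF] at GE
  have h2 : (E * F - F * E) * E - E * (E * F - F * E) =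
      (2 : K) • (E * F * E) - F * (E * E) - (E * E) * F := by
    rw [two_smul]; noncomm_ring
  rw [h2, EE, mul_zero, zero_mul, sub_zero, sub_zero] at GE
  exact smul_right_injective _ (two_ne_zero) GE

/-- eigenvalues of `h` in a quadratic `sl2`-triple -/
lemma quad_eigen {h e f : L} (t : IsSl2Triple h e f) (he : ∀ v : V, ⁅e, ⁅e, v⁆⁆ = 0)
    (hf : ∀ v : V, ⁅f, ⁅f, v⁆⁆ = 0) {v : V} (hv : v ≠ 0) {c : K} (hc : ⁅h, v⁆ = c • v) :
    c = -1 ∨ c = 0 ∨ c = 1 := by
  have h1 := quad_rel (K := K) (V := V) t he
  have h2 := quad_rel (K := K) (V := V) t.symm hf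
  set E : Module.End K V := toEnd K L V e with hE
  set F : Module.End K V := toEnd K L V f with hF
  set G : Module.End K V := toEnd K L V h with hG
  have EE : E * E = 0 := by ext w; exact he w
  have FF : F * F = 0 := by ext w; exact hf w
  have EF : E * F - F * E = G := by
    rw [hG, ← t.lie_e_f]
    ext w
    simp [hE, hF]
  have GGG : G * G * G = G := by
    have e1 : (E * F - F * E) * (E * F - F * E) * (E * F - F * E) =
        (E * F * E) * F * E * F - E * (F * F) * E * E * F - (E * F * E) * F * F * E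
        + E * (F * F) * E * F * E - F * (E * E) * F * E * F + F * (E * F * E) * E * F
        + F * (E * E) * F * F * E - F * (E * F * E) * F * E := by noncomm_ring
    rw [← EF, e1, FF, EE, h1]
    have e2 : E * F * E * F = E * F := by rw [h1]
    have e3 : F * E * F * E = F * E := by rw [h2]
    have e4 : E * F * F * E = 0 := by rw [mul_assoc E, FF, mul_zero, zero_mul]
    have e5 : F * E * E * F = 0 := by rw [mul_assoc F, EE, mul_zero, zero_mul]
    rw [e2, e3, e4, e5]
    simp
  have hv1 : G v = c • v := hc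
  have h3 : (G * G * G) v = (c * c * c) • v := by
    simp only [Module.End.mul_apply, hv1, map_smul, smul_smul, mul_assoc]
  rw [GGG, hv1] at h3
  have h4 : (c - c * c * c) • v = 0 := by rw [sub_smul, ← h3, sub_self]
  have h5 := (smul_eq_zero.1 h4).resolve_right hv
  have h6 : c * ((1 - c) * (1 + c)) = 0 := by rw [← h5]; ring
  rcases mul_eq_zero.1 h6 with h | h
  · right; left; exact h
  · rcases mul_eq_zero.1 h with h | h
    · right; right; exact (sub_eq_zero.1 h).symm
    · left; linear_combination h

end sl2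

section killing

variable {K L V : Type*} [Field K] [LieRing L] [LieAlgebra K L]
  [AddCommGroup V] [Module K V] [LieRingModule L V] [LieModule K L V]
  [CharZero K] [FiniteDimensional K L] [IsKilling K L] {H : LieSubalgebra K L}
  [H.IsCartanSubalgebra] [IsTriangularizable K H L] [FiniteDimensional K V]

variable (V) in
/-- the root `α` is minuscule for `V` -/
def Mn (α : Weight K H L) : Prop := ∀ l ∈ wts V H, l (coroot α) = -1 ∨ l (coroot α) = 0 ∨
  l (coroot α) = 1

lemma exists_vec {l : Dual K H} (hl : l ∈ wts V H) : ∃ v ∈ ws V H l, v ≠ 0 := by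
  rw [mem_wts] at hl
  exact (Submodule.ne_bot_iff _).1 hl

lemma mem_wts_of_vec {l : Dual K H} {v : V} (hv : v ∈ ws V H l) (h0 : v ≠ 0) : l ∈ wts V H := by
  rw [mem_wts, Submodule.ne_bot_iff]
  exact ⟨v, hv, h0⟩

/-- root vectors for roots not vanishing at a half are square zero -/
lemma sq_zero_of_half [LieModule.IsFaithful K L V] {u : H}
    (hu : ∀ v : V, ⁅(u : L), ⁅(u : L), v⁆⁆ = (4 : K)⁻¹ • v)
    {α : Weight K H L} (hα : α u ≠ 0) {e : L} (he : e ∈ rootSpace H α) (v : V) :
    ⁅e, ⁅e, v⁆⁆ = 0 := by
  by_cases he0 : e = 0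
  · simp [he0]
  set U : Module.End K V := toEnd K L V u with hU
  set E : Module.End K V := toEnd K L V e with hE
  have UU : U * U = (4 : K)⁻¹ • 1 := by ext w; exact hu w
  have UE : U * E - E * U = α u • E := by
    ext w
    have h1 : ⁅⁅(u : L), e⁆, w⁆ = α u • ⁅e, w⁆ := by
      rw [← smul_lie]
      congr 1
      exact lie_eq_smul_of_mem_rootSpace he u
    rw [lie_lie] at h1
    exact h1
  set c := α u with hc
  have h1 : (2 : K) • (E * U) = (-c) • E := by
    have e1 : U * (U * E - E * U) + (U * E - E * U) * U = (U * U) * E - E * (U * U) := by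
      noncomm_ring
    rw [UE, UU] at e1
    have e2 : U * E = E * U + c • E := by rw [← UE]; abel
    have e3 : c • ((2 : K) • (E * U) + c • E) = 0 := by
      have : U * c • E + c • E * U = c • ((2 : K) • (E * U) + c • E) := by
        rw [mul_smul_comm, smul_mul_assoc, e2]
        module
      rw [← this, e1]
      simp
    have e4 := (smul_eq_zero.1 e3).resolve_left hα
    rw [neg_smul]
    exact eq_neg_of_add_eq_zero_left e4
  have h2 : E * U = (-(c / 2)) • E := by
    have := congrArg (fun X => (2 : K)⁻¹ • X) h1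
    simp only [smul_smul] at this
    rw [inv_mul_cancel₀ two_ne_zero, one_smul] at this
    rw [this]; congr 1; ring
  have h3 : U * E = (c / 2) • E := by
    have : U * E = E * U + c • E := by rw [← UE]; abel
    rw [this, h2, ← add_smul]; congr 1; ring
  have h4 : c • (E * E) = 0 := by
    have e1 : E * U * E = E * (U * E) := mul_assoc _ _ _
    rw [h2, h3, smul_mul_assoc, mul_smul_comm] at e1
    have e2 : (c / 2) • (E * E) + (c / 2) • (E * E) = 0 := by
      nth_rw 1 [← e1]
      module
    rw [← add_smul] at e2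
    rw [← e2]; congr 1; ring
  have h5 := (smul_eq_zero.1 h4).resolve_left hα
  exact congrArg (fun X => X v) h5

/-- quadratic root vectors give minuscule roots -/
lemma mn_of_sq {α : Weight K H L} (hα : α.IsNonZero)
    (h1 : ∀ e ∈ rootSpace H α, ∀ v : V, ⁅e, ⁅e, v⁆⁆ = 0)
    (h2 : ∀ e ∈ rootSpace H (-α : H → K), ∀ v : V, ⁅e, ⁅e, v⁆⁆ = 0) : Mn V α := by
  obtain ⟨h, e, f, t, he, hf⟩ := exists_isSl2Triple_of_weight_isNonZero hα
  have hh := t.h_eq_coroot hα he hf
  intro l hl
  obtain ⟨v, hv, hv0⟩ := exists_vec hl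
  refine quad_eigen (V := V) t (h1 e he) (h2 f hf) hv0 ?_
  rw [hh]
  exact hv (coroot α)

/-- weights are stable under reflections in minuscule roots (positive pairing) -/
lemma Mn.sub_mem {α : Weight K H L} (hα : α.IsNonZero) (m : Mn V α) {l : Dual K H}
    (hl : l ∈ wts V H) (h1 : l (coroot α) = 1) : l - α.toLinear ∈ wts V H := by
  obtain ⟨h, e, f, t, he, hf⟩ := exists_isSl2Triple_of_weight_isNonZero hα
  have hh := t.h_eq_coroot hα he hf
  obtain ⟨v, hv, hv0⟩ := exists_vec hl
  have hev : ⁅e, v⁆ = 0 := by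
    by_contra hne
    have h2 : ⁅e, v⁆ ∈ ws V H (l + α.toLinear) :=
      lie_mem_ws he hv (fun x => by simp [add_comm])
    rcases m _ (mem_wts_of_vec h2 hne) with h3 | h3 | h3 <;>
    · rw [LinearMap.add_apply, h1] at h3
      have h4 : Weight.toLinear K H L α (coroot α) = 2 := root_apply_coroot hα
      rw [h4] at h3
      norm_num at h3
  have h5 : ⁅e, ⁅f, v⁆⁆ = v := by
    have := leibniz_lie e f v
    rw [t.lie_e_f, hev, lie_zero, add_zero, hh, hv, h1, one_smul] at this
    exact this
  have h6 : ⁅f, v⁆ ≠ 0 := by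
    intro h; rw [h, lie_zero] at h5; exact hv0 h5.symm
  refine mem_wts_of_vec (v := ⁅f, v⁆) (lie_mem_ws hf hv (fun x => ?_)) h6
  simp [sub_eq_neg_add]

lemma Mn.neg {α : Weight K H L} (m : Mn V α) : Mn V (-α) := by
  intro l hl
  rw [coroot_neg, map_neg]
  rcases m l hl with h | h | h
  · right; right; rw [h]; norm_num
  · right; left; rw [h, neg_zero]
  · left; rw [h]

lemma Mn.add_mem {α : Weight K H L} (hα : α.IsNonZero) (m : Mn V α) {l : Dual K H}
    (hl : l ∈ wts V H) (h1 : l (coroot α) = -1) : l + α.toLinear ∈ wts V H := by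
  have h2 := Mn.sub_mem (V := V) hα.neg m.neg hl (by rw [coroot_neg, map_neg, h1, neg_neg])
  rwa [Weight.toLinear_neg, sub_neg_eq_add] at h2

/-- weights are stable under reflections in minuscule roots -/
lemma Mn.refl_mem {α : H.root} (m : Mn V α.1) {l : Dual K H} (hl : l ∈ wts V H) :
    (rootSystem H).reflection α l ∈ wts V H := by
  have hα : α.1.IsNonZero := LieSubalgebra.isNonZero_coe_root α
  have h0 : (rootSystem H).reflection α l = l - l (coroot α.1) • α.1.toLinear := by
    rw [RootPairing.reflection_apply]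
    rfl
  rw [h0]
  rcases m l hl with h | h | h
  · have e : l - (-1 : K) • Weight.toLinear K H L α.1 = l + Weight.toLinear K H L α.1 := by
      ext x; simp
    rw [h, e]; exact m.add_mem hα hl h
  · rw [h, zero_smul, sub_zero]; exact hl
  · rw [h, one_smul]; exact m.sub_mem hα hl h

end killing

end Pool.Agent.Helper98.NP
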