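import Pool.Agent.Helper98.NP.Wt3
import Pool.Agent.Helper98.NP.AllMn
import Pool.Agent.Helper98.NP.Defs

/-!
# All roots are minuscule; the weight data
-/

namespace Pool.Agent.Helper98.NP

set_option linter.unusedSectionVars false

open LieAlgebra LieModule Module LieAlgebra.IsKilling

variable {K L V : Type*} [Field K] [LieRing L] [LieAlgebra K L]
  [AddCommGroup V] [Module K V] [LieRingModule L V] [LieModule K L V]
  [CharZero K] [FiniteDimensional K L] [IsKilling K L] {H : LieSubalgebra K L}
  [H.IsCartanSubalgebra] [IsTriangularizable K H L] [FiniteDimensional K V]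
  [LieModule.IsFaithful K L V] [IsSimple K L]

theorem all_mn [Nontrivial V] {u : H} (hu : ∀ v : V, ⁅(u : L), ⁅(u : L), v⁆⁆ = (4 : K)⁻¹ • v)
    (α : H.root) : Mn V α.1 := by
  have hnz : ∃ i, (rootSystem H).toLinearMap ((rootSystem H).root i) u ≠ 0 := by
    by_contra hcon
    push Not at hcon
    have h0 : u = 0 := by
      have h1 : u ∈ ⨅ α : Weight K H L, α.ker := by
        rw [Submodule.mem_iInf]
        intro α
        rw [LinearMap.mem_ker]
        by_cases hα : α.IsZero
        · exact congrFun hα u
        · have hα' : α ∈ H.root := by simpa using hα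
          exact hcon ⟨α, hα'⟩
      rw [iInf_ker_weight_eq_bot] at h1
      simpa using h1
    obtain ⟨v, hv⟩ := exists_ne (0 : V)
    have h2 := hu v
    rw [h0] at h2
    simp only [ZeroMemClass.coe_zero, zero_lie] at h2
    exact (smul_ne_zero (by norm_num) hv) h2.symm
  have hm : ∀ i : H.root, (rootSystem H).toLinearMap ((rootSystem H).root i) u ≠ 0 → Mn V i.1 := by
    intro i hi
    have hα : i.1.IsNonZero := LieSubalgebra.isNonZero_coe_root i
    have hi' : i.1 u ≠ 0 := hi
    refine mn_of_sq hα (fun e he v => sq_zero_of_half hu hi' he v) (fun e he v => ?_)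
    refine sq_zero_of_half (α := -i.1) hu ?_ he v
    rw [Weight.coe_neg, Pi.neg_apply, neg_ne_zero]
    exact hi'
  exact all_minuscule (P := rootSystem H) (Λ := (wts V H : Set (Dual K H))) hnz
    (fun i hi => hm i hi) (fun i hi l hl => (hm i hi).refl_mem hl) α

end Pool.Agent.Helper98.NP
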