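import Pool.Agent.Helper98.NP.Wt4
import Pool.Agent.Helper66.OTR.Form

/-!
# The weight data of a symplectic module
-/

namespace Pool.Agent.Helper98.NP

set_option linter.unusedSectionVars false

open LieAlgebra LieModule Module LieAlgebra.IsKilling

variable {K L V : Type*} [Field K] [LieRing L] [LieAlgebra K L]
  [AddCommGroup V] [Module K V] [LieRingModule L V] [LieModule K L V]
  [CharZero K] [FiniteDimensional K L] [IsKilling K L] {H : LieSubalgebra K L}
  [H.IsCartanSubalgebra] [IsTriangularizable K H L] [FiniteDimensional K V]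

section form

variable {ψ : LinearMap.BilinForm K V} (hinv : ∀ (x : L) (v w : V), ψ ⁅x, v⁆ w = - ψ v ⁅x, w⁆)

include hinv

lemma ws_orth {l l' : Dual K H} (hne : l + l' ≠ 0) {v w : V} (hv : v ∈ ws V H l)
    (hw : w ∈ ws V H l') : ψ v w = 0 := by
  obtain ⟨x, hx⟩ : ∃ x, (l + l') x ≠ 0 := by
    by_contra hcon
    push Not at hcon
    exact hne (LinearMap.ext hcon)
  have h1 := hinv x v w
  rw [hv x, hw x, map_smul, LinearMap.smul_apply, map_smul, smul_eq_mul, smul_eq_mul] at h1
  have h2 : (l + l') x * ψ v w = 0 := by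
    rw [LinearMap.add_apply]; linear_combination h1
  exact (mul_eq_zero.1 h2).resolve_left hx

variable [IsAlgClosed K] [LieModule.IsIrreducible K L V]

lemma ws_pair (hnd : ψ.Nondegenerate) {l : Dual K H} {v : V} (hv : v ∈ ws V H l) (h0 : v ≠ 0) :
    ∃ w ∈ ws V H (-l), ψ v w ≠ 0 := by
  by_contra hcon
  push Not at hcon
  have h1 : (⊤ : Submodule K V) ≤ LinearMap.ker (ψ v) := by
    rw [← ws_top V H]
    refine iSup_le fun l' w hw => ?_
    rw [LinearMap.mem_ker]
    by_cases h : l + l' = 0
    · have : l' = -l := (neg_eq_of_add_eq_zero_right h).symm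
      subst this
      exact hcon w hw
    · exact ws_orth hinv h hv hw
  apply h0
  refine (hnd.1) v (fun w => ?_)
  exact h1 (Submodule.mem_top (x := w))

lemma neg_mem_wts (hnd : ψ.Nondegenerate) {l : Dual K H} (hl : l ∈ wts V H) : -l ∈ wts V H := by
  obtain ⟨v, hv, h0⟩ := exists_vec hl
  obtain ⟨w, hw, h1⟩ := ws_pair hinv hnd hv h0
  refine mem_wts_of_vec hw ?_
  rintro rfl
  simp at h1

lemma finrank_ws_le (hnd : ψ.Nondegenerate) (l : Dual K H) :
    finrank K (ws V H l) ≤ finrank K (ws V H (-l)) := by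
  let B : ws V H l →ₗ[K] Dual K (ws V H (-l)) :=
    (ψ.domRestrict₁₂ (ws V H l) (ws V H (-l)))
  have hB : Function.Injective B := by
    rw [← LinearMap.ker_eq_bot, LinearMap.ker_eq_bot']
    intro v hv
    by_contra hne
    obtain ⟨w, hw, h1⟩ := ws_pair hinv hnd v.2 (fun h => hne (Subtype.ext h))
    exact h1 (congrArg (fun f => f ⟨w, hw⟩) hv)
  have := LinearMap.finrank_le_finrank_of_injective hB
  rwa [Subspace.dual_finrank_eq] at this

lemma finrank_ws_neg (hnd : ψ.Nondegenerate) (l : Dual K H) :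
    finrank K (ws V H (-l)) = finrank K (ws V H l) := by
  refine le_antisymm ?_ (finrank_ws_le hinv hnd l)
  have := finrank_ws_le hinv hnd (-l)
  rwa [neg_neg] at this

end form

section data

variable [IsAlgClosed K] [LieModule.IsIrreducible K L V] [LieModule.IsFaithful K L V]

lemma exists_wt_ne (i : H.root) : ∃ l ∈ wts V H, l (coroot i.1) ≠ 0 := by
  by_contra hcon
  push Not at hcon
  have h1 : (⊤ : Submodule K V) ≤ LinearMap.ker (toEnd K L V (coroot i.1 : H)) := by
    rw [← ws_top V H]
    refine iSup_le fun l w hw => ?_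
    rw [LinearMap.mem_ker, toEnd_apply_apply, hw]
    by_cases h : l ∈ wts V H
    · rw [hcon l h, zero_smul]
    · rw [mem_wts, not_not] at h
      rw [h, Submodule.mem_bot] at hw
      rw [hw, smul_zero]
  rw [top_le_iff, LinearMap.ker_eq_top] at h1
  have h2 : ((coroot i.1 : H) : L) = 0 := by
    have := (LieModule.isFaithful_iff' K L V).1 inferInstance ((coroot i.1 : H) : L)
      (fun v => congrArg (fun f => f v) h1)
    exact this
  have h3 : coroot i.1 = 0 := Subtype.ext h2
  rw [coroot_eq_zero_iff] at h3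
  exact (LieSubalgebra.isNonZero_coe_root i) h3

/-- the trace identity -/
lemma exists_rho (hall : ∀ α : H.root, ∀ e ∈ rootSpace H α.1, ∀ v : V, ⁅e, ⁅e, v⁆⁆ = 0)
    (α : H.root) : ∃ e : L, (∀ v : V, ⁅e, ⁅e, v⁆⁆ = 0) ∧ ∀ x : H,
      ∑ l ∈ wts V H, (finrank K (ws V H l) : K) * (l x * l (coroot α.1)) =
      (finrank K (LinearMap.range (toEnd K L V e)) : K) * α.1 x := by
  have hα : α.1.IsNonZero := LieSubalgebra.isNonZero_coe_root α
  obtain ⟨h, e, f, t, he, hf⟩ := exists_isSl2Triple_of_weight_isNonZero hα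
  have hh := t.h_eq_coroot hα he hf
  refine ⟨e, hall α e he, fun x => ?_⟩
  rw [← trace_lie x (coroot α.1), ← hh, ← t.lie_e_f]
  have hrel := quad_rel (K := K) (V := V) t (hall α e he)
  set E : Module.End K V := toEnd K L V e with hE
  set F : Module.End K V := toEnd K L V f with hF
  set X : Module.End K V := toEnd K L V x with hX
  have EF : toEnd K L V ⁅e, f⁆ = E * F - F * E := by
    ext w; simp [hE, hF]
  have XE : X * E - E * X = α.1 x • E := by
    ext w
    have h1 : ⁅⁅(x : L), e⁆, w⁆ = α.1 x • ⁅e, w⁆ := by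
      rw [← smul_lie]
      congr 1
      exact lie_eq_smul_of_mem_rootSpace he x
    rw [lie_lie] at h1
    exact h1
  rw [EF]
  have e1 : LinearMap.trace K V (X * (E * F - F * E)) =
      LinearMap.trace K V ((X * E - E * X) * F) := by
    rw [mul_sub, sub_mul, map_sub, map_sub, ← mul_assoc, ← mul_assoc,
      LinearMap.trace_mul_comm K (X * F) E, ← mul_assoc]
  rw [e1, XE, smul_mul_assoc, map_smul, smul_eq_mul, mul_comm]
  congr 1
  have hid : (E * F) * (E * F) = E * F := by rw [← mul_assoc, hrel]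
  rw [Pool.Agent.Helper66.OTR.trace_idem hid]
  have hr : LinearMap.range (E * F) = LinearMap.range E := by
    apply le_antisymm
    · rintro _ ⟨w, rfl⟩
      exact ⟨F w, rfl⟩
    · rintro _ ⟨w, rfl⟩
      refine ⟨E w, ?_⟩
      exact congrArg (fun T => T w) hrel
  rw [hr]

end data

end Pool.Agent.Helper98.NP
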